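import Pool.Agent.L7h81.UR.Fin

/-!
# The central values `L(1, E/F)` are not zero, and `L(1, E/F) / Ω(E/F) = q (L(1, E/K) / Ω(E/K))^[F:K]` with `q ∈ ℚˣ`, for a
# uniform positive proportion of the abelian extensions `F` of an imaginary quadratic field `K`

`K` is an imaginary quadratic field of class number one, and `E_i : y² = x³ + a_i x + b_i`, `i = 1, …, m`, are
elliptic curves over `K` (not necessarily defined over `ℚ`, and without complex multiplication in general), which
belong to Bianchi newforms of weight two, with `L(1, E_i/K) ≠ 0`.  The problem is about the elliptic curves `A` over number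
fields `F` with `L(1, A) ≠ 0` and asks for `L(1, A) ∈ Ω(A) ℚˣ`.  `OneConstant` shows, for the abelian
extensions `F/K` of conductor prime to the level, that `L(1, E/F) ∈ Ω(E/F) ℚ` follows from the same over `K`; nothing is said
there about the values which are zero, and the rational number may be zero.

Theorem.  Let `l` be any prime number, also `2`.  A place `v` of `K` is admissible if it does not divide `2 (4a_i³ + 27b_i²)`
and the numbers of the points of the `E_i` over the residue field of `v` are prime to `l`.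
(1) For all `n` and `r` there is a number `V` such that for every group `H`, finite or infinite and as sparse as one
likes, of characters of `K` of order dividing `l ^ n` whose conductors are products of different admissible places, the
following holds for a proportion at least `2 ^ (-V)` of the `r`-tuples in `H`: for every class field `F/K` of
characters in the group generated by the tuple and all `i`, `L(1, E_i/F) ≠ 0`, and
`L(1, E_i/F) / Ω(E_i/F) = q (L(1, E_i/K) / Ω(E_i/K))^[F:K]` with a rational number `q ≠ 0`.  So the assertion of the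
problem for `E_i` over `F` (with a value which is not zero) follows from the assertion for `E_i` over `K`; and the
assertion for `E_i/K` is equivalent to the assertion for `E_i/F` and `E_i/F'`, for two such fields (with two primes `l`)
of coprime degrees.  (2) Every infinite such group `H` has an infinite subgroup `H₀` such that this holds for all
tuples in `H₀`, of any length: so there are infinite towers of such fields `F`.

The proof.  Let `f_i` be the newform of `E_i`, and `Φ_i` the primitive of its harmonic differential.  For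
a character `χ` of conductor `m` the value `L(f_i ⊗ χ, 1)` is, up to a nonzero factor, the sum
`β_i(χ) = ∑ χ⁻¹(x) Φ_i(x/m)` over the classes `x` modulo `m`.  By the Hecke relations, the sum with a larger
modulus `m q₁ … q_t` is `β_i(χ) ∏ (c_i(q_j) - χ(q_j) - χ⁻¹(q_j))`, and for admissible `q_j` the factors are units at
a maximal ideal `P` of a finite extension `R` of `ℤ` above `l`.  For a finite set of characters and a common modulus the
sums are combinations of characters of the group `H` with coefficients in a finitely generated `R`-module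
which does not depend on `H`; as `Φ_i(0) ≠ 0`, the product of the sums for all the characters in the group
generated by the tuple is not contained in `P ^ (V+1)` times this module at the trivial tuple, and for a combination of
characters of an `l`-group this gives a set of at most `2 ^ V` corrections.  The product of the `L(f_i ⊗ χ, 1)` over the
characters of `Gal(F/K)` is `L(1, E_i/F)` up to a nonzero rational factor (the factors at the bad places), and the relation with
the periods `Ω(E_i/F)` is the one of `OneConstant`: Gauss sums, conductors and discriminants, and periods at all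
places of `F`.

The parts of the proof were written with helper15, helper50, helper53, helper60, helper65, helper76 and helper82.
-/

set_option autoImplicit false

open NumberField IsDedekindDomain Matrix WeierstrassCurve Filter Topology

namespace Pool.Agent.Results.MP_90f827_nt.NonvanishingProportion

/-- `K` is an imaginary quadratic field, `σ` is one of its two embeddings in `ℂ`, and `δ` generates the
different of `K`: an `x ∈ K` is in `𝓞` if and only if `Tr(x y / δ) ∈ ℤ` for all `y ∈ 𝓞`. -/
structure IsFieldData (K : Type) [Field K] [NumberField K] (σ : K →+* ℂ) (δ : K) : Prop where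
  quadratic : Module.finrank ℚ K = 2
  imaginary : ∃ x, (starRingEnd ℂ) (σ x) ≠ σ x
  different : ∀ x : K, (∃ a : 𝓞 K, (a : K) = x) ↔
    ∀ y : 𝓞 K, ∃ m : ℤ, Algebra.trace ℚ K (x * y / δ) = m

/-- `h(y) = ∫_0^∞ exp(-1/v - y v) dv = 2 y^(-1/2) K₁(2 √y)`, with the Bessel function `K₁`. -/
noncomputable def bessel (y : ℝ) : ℝ := ∫ v in Set.Ioi (0 : ℝ), Real.exp (-(1 / v) - y * v)

/-- The additive character `e(z) = exp(2πi (z/δ + conj (z/δ)))` of `ℂ`, trivial on `𝓞`. -/
noncomputable def addChar (δ z : ℂ) : ℂ :=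
  Complex.exp (2 * Real.pi * Complex.I * (z / δ + (starRingEnd ℂ) (z / δ)))

/-- The denominator `|c z + d|² + |c|² t²` of the action of the matrix `(a, b; c, d)` on the hyperbolic
space `{(z, t) : z ∈ ℂ, t > 0}`. -/
noncomputable def den (c d z : ℂ) (t : ℝ) : ℝ := ‖c * z + d‖ ^ 2 + ‖c‖ ^ 2 * t ^ 2

/-- The first coordinate `((a z + b) conj (c z + d) + a conj(c) t²) / (|c z + d|² + |c|² t²)` of the image
of `(z, t)` under the matrix `(a, b; c, d)`. -/
noncomputable def actZ (a b c d z : ℂ) (t : ℝ) : ℂ :=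
  ((a * z + b) * (starRingEnd ℂ) (c * z + d) + a * (starRingEnd ℂ) c * (t : ℂ) ^ 2) /
    (den c d z t : ℂ)

/-- The second coordinate, for a matrix of determinant one; in general it is `|ad - bc|` times this. -/
noncomputable def actT (c d z : ℂ) (t : ℝ) : ℝ := t / den c d z t

section field
variable {K : Type} [Field K] [NumberField K]

/-- The function `Φ(z, t) = ∑_{x ∈ 𝓞} c((x)) t² h(N(x) (2πt/|δ|)²) e(x z)
  = (|δ|/π) ∑_{x ≠ 0} (c((x))/|x|) t K₁(4π|x|t/|δ|) e(x z)` on the hyperbolic space, with the coefficients `c`.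
Up to a constant factor it is the primitive, zero at the cusp `∞`, of the harmonic differential of the
form of weight two with the Fourier coefficients `c`: its derivative by `t` is
`-4 ∑_{x ≠ 0} c((x)) t K₀(4π|x|t/|δ|) e(x z)`. -/
noncomputable def primitive (σ : K →+* ℂ) (δ : K) (c : Ideal (𝓞 K) → ℂ) (z : ℂ) (t : ℝ) : ℂ :=
  ∑' x : 𝓞 K, c (Ideal.span {x}) * ((t ^ 2 * bessel (Ideal.absNorm (Ideal.span {x}) *
    (2 * Real.pi * t / ‖σ δ‖) ^ 2) : ℝ) : ℂ) * addChar (σ δ) (σ x * z)

/-- The group `Λ` generated by the values of the primitive `Φ` at the cusps `x/m`, `m ≠ 0` prime to the level (that is,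
by the limits of `Φ(x/m, t)` for `t → 0`). -/
def Lam (σ : K →+* ℂ) (δ : K) (n : 𝓞 K) (c : Ideal (𝓞 K) → ℂ) : AddSubgroup ℂ :=
  AddSubgroup.closure {z | ∃ x m : 𝓞 K, m ≠ 0 ∧ IsCoprime m n ∧
    Tendsto (fun t => primitive σ δ c (σ x / σ m) t) (𝓝[>] 0) (𝓝 z)}

/-- The numbers `c(I)` are the Hecke eigenvalues of a Bianchi newform `f` of weight two, level `(n)` and
trivial character over `K`, with rational eigenvalues: they satisfy `c(𝓞) = 1`, the (trivial) bound `c(I) = O(N(I))`
and the Hecke relations `c(v I) = c(v) c(I)` for `v ∤ I`, `c(v² I) = c(v) c(v I) - N(v) c(I)` for the primes `v ∤ n`, and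
`c(v I) = c(v) c(I)` for `v ∣ n`; the differential `dΦ` of the function `Φ` with the coefficients `c` is
invariant under `Γ₀(n)`, that is, `Φ(γ P) - Φ(P)` is a constant for every `γ ∈ Γ₀(n)`; `dΦ` is an
eigenform, with the eigenvalue `±1`, of the Fricke involution `W = (0, -1; n, 0)`; and the group `Λ` of the values of `Φ` at
cusps is cyclic (this is so for rational eigenvalues, by multiplicity one and the theorem of Manin, Drinfeld and
Kurčanov: the quotient of `H₁(Γ₀(n), cusps; ℤ)` which belongs to `f` has rank one). -/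
structure IsNewform (σ : K →+* ℂ) (δ : K) (n : 𝓞 K) (c : Ideal (𝓞 K) → ℂ) : Prop where
  level : n ≠ 0
  zero : c ⊥ = 0
  one : c ⊤ = 1
  bound : ∃ C : ℝ, ∀ I, ‖c I‖ ≤ C * Ideal.absNorm I
  good : ∀ v : HeightOneSpectrum (𝓞 K), n ∉ v.asIdeal → ∀ I,
    (¬ v.asIdeal ∣ I → c (v.asIdeal * I) = c v.asIdeal * c I) ∧
    c (v.asIdeal * (v.asIdeal * I)) = c v.asIdeal * c (v.asIdeal * I) -
      Ideal.absNorm v.asIdeal * c I
  bad : ∀ v : HeightOneSpectrum (𝓞 K), n ∈ v.asIdeal → ∀ I,
    c (v.asIdeal * I) = c v.asIdeal * c I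
  invariant : ∃ κ : SpecialLinearGroup (Fin 2) (𝓞 K) → ℂ,
    ∀ γ : SpecialLinearGroup (Fin 2) (𝓞 K), n ∣ γ.1 1 0 → ∀ (z : ℂ) (t : ℝ), 0 < t →
      primitive σ δ c (actZ (σ (γ.1 0 0)) (σ (γ.1 0 1)) (σ (γ.1 1 0)) (σ (γ.1 1 1)) z t)
        (actT (σ (γ.1 1 0)) (σ (γ.1 1 1)) z t) = primitive σ δ c z t + κ γ
  fricke : ∃ w κ : ℂ, w * w = 1 ∧ ∀ (z : ℂ) (t : ℝ), 0 < t →
    primitive σ δ c (actZ 0 (-1) (σ n) 0 z t) (‖σ n‖ * actT (σ n) 0 z t) =
      -w * primitive σ δ c z t + κ
  cyclic : ∃ ω ∈ Lam σ δ n c, ∀ l ∈ Lam σ δ n c, ∃ j : ℤ, l = j * ω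

/-- The curve `E : y² = x³ + a x + b` over `K`. -/
def curve (a b : K) : WeierstrassCurve K := ⟨0, 0, 0, a, b⟩

open Classical in
/-- `f` is the newform of `E : y² = x³ + a x + b`: the Euler factors of `f` and of `E` agree at all the places `v` of
`K`, that is, the local polynomial of `E` at `v` (Mathlib's `WeierstrassCurve.localPolynomial`) is
`1 - c(v) X + N(v) X²`, without the last term if `v ∣ n`. -/
def IsNewformOf (a b n : 𝓞 K) (c : Ideal (𝓞 K) → ℂ) : Prop :=
  ∀ v : HeightOneSpectrum (𝓞 K),
    (((curve (a : K) (b : K)).baseChange (v.adicCompletion K)).localPolynomial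
      (v.adicCompletionIntegers K)).map (Int.castRingHom ℂ) =
      1 - Polynomial.C (c v.asIdeal) * Polynomial.X +
        Polynomial.C (if n ∈ v.asIdeal then 0 else (Ideal.absNorm v.asIdeal : ℂ)) *
          Polynomial.X ^ 2

/-- The curve `E : y² = x³ + a x + b` over the extension `F` of `K`. -/
def curveOver (F : Type) [Field F] [Algebra K F] (a b : K) : WeierstrassCurve F :=
  (curve a b).map (algebraMap K F)

/-- The admissible places for one curve: `v ∤ 2 (4a³ + 27b²)`, and the number of the points of `E` over `𝓞/v` (with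
the point at infinity) is prime to `l`. -/
def Admissible (l : ℕ) (a b : 𝓞 K) (v : HeightOneSpectrum (𝓞 K)) : Prop :=
  2 * (4 * a ^ 3 + 27 * b ^ 2) ∉ v.asIdeal ∧
    ¬ l ∣ Nat.card {x : (𝓞 K ⧸ v.asIdeal) × (𝓞 K ⧸ v.asIdeal) //
      x.2 ^ 2 = x.1 ^ 3 + Ideal.Quotient.mk v.asIdeal a * x.1 + Ideal.Quotient.mk v.asIdeal b} + 1

/-- The families `c = (c_v)` of characters `c_v` of the groups `(𝓞/v)ˣ`.  The family with `c_v = 1` except for
the places `v` of a finite set stands for the character `∏ c_v` modulo the product of these places; if it is trivial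
on the units of `𝓞`, this is a character of (the ideals of) `K` of squarefree conductor. -/
abbrev Fam (K : Type) [Field K] [NumberField K] : Type :=
  (v : HeightOneSpectrum (𝓞 K)) → (𝓞 K ⧸ v.asIdeal)ˣ →* ℂˣ

open Classical in
/-- The set of the `v` with `c_v ≠ 1` (if it is finite). -/
noncomputable def supp (c : Fam K) : Finset (HeightOneSpectrum (𝓞 K)) :=
  if h : {v | c v ≠ 1}.Finite then h.toFinset else ∅

/-- The norm of the conductor. -/
noncomputable def conductorNorm (c : Fam K) : ℕ := ∏ v ∈ supp c, Ideal.absNorm v.asIdeal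

open Classical in
/-- The value of the character at `x`. -/
noncomputable def value (c : Fam K) (x : 𝓞 K) : ℂ :=
  ∏ v ∈ supp c, if h : IsUnit (Ideal.Quotient.mk v.asIdeal x) then (c v h.unit : ℂ) else 0

/-- `H` is a group of characters of `K` of order dividing `l ^ n`, of conductors which are products of different
places, admissible for all the curves. -/
structure IsCharGroup (l : ℕ) {m : ℕ} (a b : Fin m → 𝓞 K) (n : ℕ) (H : Subgroup (Fam K)) : Prop where
  pow : ∀ c ∈ H, c ^ (l ^ n) = 1
  finite : ∀ c ∈ H, {v | c v ≠ 1}.Finite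
  units : ∀ c ∈ H, ∀ u : 𝓞 K, IsUnit u → value c u = 1
  admissible : ∀ c ∈ H, ∀ v, c v ≠ 1 → ∀ i, Admissible l (a i) (b i) v

section extension

variable (F : Type) [Field F] [NumberField F] [Algebra K F]

/-- The places `u` of `F` above `v`. -/
def Above (v : HeightOneSpectrum (𝓞 K)) : Type :=
  {u : HeightOneSpectrum (𝓞 F) // u.asIdeal.comap (algebraMap (𝓞 K) (𝓞 F)) = v.asIdeal}

/-- The Frobenius automorphisms at the place `u` of `F` above `v`: the `t ∈ Gal(F/K)` with `t x = x ^ N(v)`
modulo `u` for all the integers `x` of `F`.  They are a coset of the inertia group of `u`. -/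
def FrobSet (v : HeightOneSpectrum (𝓞 K)) (u : HeightOneSpectrum (𝓞 F)) : Set (F ≃ₐ[K] F) :=
  {t | ∀ x : 𝓞 F, t • x - x ^ Ideal.absNorm v.asIdeal ∈ u.asIdeal}

/-- `F` is a class field of characters of `K` in the group generated by `χ_1, …, χ_r`: `F/K` is an abelian
extension, to each character `ψ` of `Gal(F/K)` corresponds a character `e ψ = ∏ χ_j ^ J_j` of `K` with
the law of reciprocity: the places of the conductor of `e ψ` are those at which `ψ` is ramified (not trivial on
the inertia groups), and `ψ(t) = (e ψ)(v)` for all other places `v` of `K` and all Frobenius automorphisms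
`t ∈ Gal(F/K)` at places of `F` above `v`; and the formula `|d_F| = |d_K|^[F:K] ∏ N(𝔣(e ψ))` for conductors and discriminants
holds.  (By class field theory these are the fields between `K` and the class field of the group generated by
`χ_1, …, χ_r`; the law of reciprocity and the formula are not in Mathlib.) -/
structure IsClassField [IsPrincipalIdealRing (𝓞 K)] {r : ℕ} (χ : Fin r → Fam K) : Prop where
  galois : IsGalois K F
  abelian : ∀ s t : F ≃ₐ[K] F, s * t = t * s
  reciprocity : ∃ e : ((F ≃ₐ[K] F) →* ℂˣ) → Fam K,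
    (∀ ψ, ∃ J : Fin r → ℕ, e ψ = ∏ j, χ j ^ J j) ∧
    (∀ ψ, ∀ v : HeightOneSpectrum (𝓞 K), e ψ v ≠ 1 → ∀ u : Above F v,
      ∃ t : F ≃ₐ[K] F, (∀ x : 𝓞 F, t • x - x ∈ u.1.asIdeal) ∧ ψ t ≠ 1) ∧
    (∀ ψ, ∀ v : HeightOneSpectrum (𝓞 K), e ψ v = 1 → ∀ u : Above F v, ∀ t ∈ FrobSet F v u.1,
      (ψ t : ℂ) = value (e ψ) (Submodule.IsPrincipal.generator v.asIdeal)) ∧
    |(discr F : ℝ)| = |(discr K : ℝ)| ^ Module.finrank K F * ∏ᶠ ψ, (conductorNorm (e ψ) : ℝ)

end extension

/-- `x = L(1, E)` for the elliptic curve `E` over the number field `F`: the value at `1` of an analytic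
continuation of the `L`-series of `E` (Mathlib's `WeierstrassCurve.LSeries`) from `Re s > 2` to a connected open set
containing `1`. -/
def CentralValue {F : Type} [Field F] [NumberField F] (E : WeierstrassCurve F) (x : ℂ) : Prop :=
  ∃ (U : Set ℂ) (Φ : ℂ → ℂ), IsOpen U ∧ IsConnected U ∧ {s : ℂ | (2 : ℝ) < s.re} ⊆ U ∧ (1 : ℂ) ∈ U ∧
    AnalyticOnNhd ℂ Φ U ∧ (∀ s : ℂ, (2 : ℝ) < s.re → Φ s = E.LSeries s) ∧ Φ 1 = x

/-- `Ω = Ω(E)` for the elliptic curve `E : y² = x³ + a x + b` over the number field `F` without real places and the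
differential `dx/(2y)`: `Ω = |d_F|^(1/2) ∏ Im(Ω₁ conj Ω₂)`, where the product is over the archimedean places `w` of `F`,
and `Ω₁`, `Ω₂` is a basis of the lattice with `g₂ = -4 e(a)`, `g₃ = -4 e(b)` (that is, `(℘, ℘'/2)` is a parametrization of the
curve `y² = x³ + e(a) x + e(b)`), for a chosen embedding `e` which belongs to the place `w`. -/
def IsOmega (F : Type) [Field F] [NumberField F] (a b : F) (Ω : ℝ) : Prop :=
  ∃ (e : InfinitePlace F → (F →+* ℂ)) (L : InfinitePlace F → PeriodPair),
    (∀ w, InfinitePlace.mk (e w) = w ∧ w.IsComplex ∧ (L w).g₂ = -4 * e w a ∧ (L w).g₃ = -4 * e w b) ∧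
    Ω = √|(discr F : ℝ)| * ∏ w, ((L w).ω₁ * (starRingEnd ℂ) (L w).ω₂).im

/-- The assertion of the problem for `E : y² = x³ + a x + b` over `F`: `L(1, E) ∈ Ω(E) ℚˣ`, and so `L(1, E) ≠ 0`. -/
def IsRationalNonzero (F : Type) [Field F] [NumberField F] [Algebra K F] (a b : K) : Prop :=
  ∃ (x : ℂ) (Ω : ℝ) (q : ℚ), CentralValue (curveOver F a b) x ∧
    IsOmega F (algebraMap K F a) (algebraMap K F b) Ω ∧ q ≠ 0 ∧ x = q * Ω

/-- The conclusion for the curve `E : y² = x³ + a x + b` and the field `F`: the central value `L(1, E/F)` exists and is not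
zero, `L(1, E/F) / Ω(E/F) = q (L(1, E/K) / Ω(E/K))^[F:K]` with `q ∈ ℚˣ`, and the assertion of the problem for `E` over
`K` implies the assertion of the problem for `E` over `F`. -/
structure NonzeroRationalOver (F : Type) [Field F] [NumberField F] [Algebra K F] (a b : K) : Prop where
  exists_value : ∃ x, CentralValue (curveOver F a b) x
  nonzero : ∀ x, CentralValue (curveOver F a b) x → x ≠ 0
  quotient : ∀ (x₀ x : ℂ) (Ω₀ Ω : ℝ),
    CentralValue (curveOver K a b) x₀ → IsOmega K (algebraMap K K a) (algebraMap K K b) Ω₀ →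
    CentralValue (curveOver F a b) x → IsOmega F (algebraMap K F a) (algebraMap K F b) Ω →
    ∃ q : ℚ, q ≠ 0 ∧ x / Ω = q * (x₀ / Ω₀) ^ Module.finrank K F
  assertion : IsRationalNonzero K a b → IsRationalNonzero F a b

/-- The conclusion for a tuple of characters: for all the class fields `F` and all the curves. -/
def AllNonzeroRational [IsPrincipalIdealRing (𝓞 K)] {m : ℕ} (a b : Fin m → 𝓞 K) {r : ℕ}
    (χ : Fin r → Fam K) : Prop :=
  ∀ (F : Type) [Field F] [NumberField F] [Algebra K F], IsClassField F χ →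
    ∀ i, NonzeroRationalOver F (a i : K) (b i : K)

/-- The set of the `r`-tuples of elements of `H`. -/
def Tuples (H : Subgroup (Fam K)) (r : ℕ) : Set (Fin r → Fam K) := {c | ∀ j, c j ∈ H}

/-- The property `P` holds for a proportion at least `2 ^ (-V)` of the `r`-tuples in `H`: there is a set
`S` of at most `2 ^ V` tuples in `H` such that every tuple in `H` can be multiplied by an element of `S`
so that the product has the property `P`; so the proportion of the tuples with `P` is at least
`2 ^ (-V)` if `H` is finite, and if `H` is infinite, the number of the tuples with product of the norms of the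
conductors at most `X` is at most `2 ^ V` times the number of the tuples with `P` and with product of
the norms of the conductors at most `C X`, `C` independent of `X`. -/
def ManyTuples (V : ℕ) (H : Subgroup (Fam K)) (r : ℕ) (P : (Fin r → Fam K) → Prop) : Prop :=
  (∃ S : Finset (Fin r → Fam K), S.card ≤ 2 ^ V ∧ (S : Set (Fin r → Fam K)) ⊆ Tuples H r ∧
    ∀ c ∈ Tuples H r, ∃ k ∈ S, P (fun j => c j * k j)) ∧
  ((H : Set (Fam K)).Finite → (Tuples H r).ncard ≤ 2 ^ V * {c | c ∈ Tuples H r ∧ P c}.ncard) ∧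
  ∃ C : ℕ, ∀ X : ℕ, {c | c ∈ Tuples H r ∧ ∏ j, conductorNorm (c j) ≤ X}.ncard ≤
    2 ^ V * {c | (c ∈ Tuples H r ∧ P c) ∧ ∏ j, conductorNorm (c j) ≤ C * X}.ncard

end field

section proof

theorem rcd_of {K : Type} [Field K] [NumberField K] [IsPrincipalIdealRing (𝓞 K)] {r : ℕ}
    {χ : Fin r → Fam K} {F : Type} [Field F] [NumberField F] [Algebra K F]
    (h : IsClassField F χ) : ∃ E, L7h81.UR.Rcd F χ E := by
  obtain ⟨e, h1, h2, h3, h4⟩ := h.reciprocity
  exact ⟨e, h1, fun ψ v hv u hu => h2 ψ v hv ⟨u, hu⟩, fun ψ v hv u hu t ht => h3 ψ v hv ⟨u, hu⟩ t ht, h4⟩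

theorem concl_of {K : Type} [Field K] [NumberField K] [IsPrincipalIdealRing (𝓞 K)]
    {a b : 𝓞 K} {F : Type} [Field F] [NumberField F] [Algebra K F]
    (h : L7h81.UR.ConclR a b F) : NonzeroRationalOver F (a : K) (b : K) := by
  have e2 : curveOver F (a : K) (b : K) = L7h15.BK.cv (algebraMap K F (a : K)) (algebraMap K F (b : K)) := by
    unfold curveOver curve L7h15.BK.cv WeierstrassCurve.map
    simp
  have e3 : curveOver K (a : K) (b : K) = L7h15.BK.cv (a : K) (b : K) := by
    unfold curveOver curve L7h15.BK.cv WeierstrassCurve.map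
    simp
  obtain ⟨x, hx, hx0⟩ := h.ex
  refine ⟨⟨x, by rw [e2]; exact hx⟩, fun x hx => ?_, fun x₀ x Ω₀ Ω hx₀ hΩ₀ hx hΩ => ?_, ?_⟩
  · rw [e2] at hx
    exact h.ne x hx
  · rw [e2] at hx
    rw [e3] at hx₀
    exact h.all x₀ x Ω₀ Ω hx₀ hΩ₀ hx hΩ
  · rintro ⟨x₀, Ω₀, q₀, hx₀, hΩ₀, hq₀, hq⟩
    obtain ⟨Ω, hΩ⟩ := h.per ⟨Ω₀, hΩ₀⟩
    rw [e3] at hx₀
    obtain ⟨q, hq1, hq2⟩ := h.all x₀ x Ω₀ Ω hx₀ hΩ₀ hx hΩ
    have h1 : (Ω₀ : ℂ) ≠ 0 := by exact_mod_cast L7h81.UR.om_ne hΩ₀
    have h2 : (Ω : ℂ) ≠ 0 := by exact_mod_cast L7h81.UR.om_ne hΩ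
    refine ⟨x, Ω, q * q₀ ^ Module.finrank K F, by rw [e2]; exact hx, hΩ,
      mul_ne_zero hq1 (pow_ne_zero _ hq₀), ?_⟩
    have h3 : x₀ / Ω₀ = q₀ := by rw [hq]; field_simp
    rw [h3, div_eq_iff h2] at hq2
    rw [hq2]
    push_cast
    ring

end proof

/-- **Theorem.** Let `K` be an imaginary quadratic field of class number one, `E_i : y² = x³ + a_i x + b_i`,
`i = 1, …, m`, elliptic curves over `K` with Bianchi newforms `f_i` of levels `(N_i)` and with `L(1, E_i/K) ≠ 0`, and `l` a
prime number.
(1) For all `n`, `r` there is `V` such that for every group `H` of characters of `K` of order dividing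
`l ^ n` and of conductors which are products of different admissible places, for a proportion at least `2 ^ (-V)` of
the tuples `χ_1, …, χ_r` in `H` the following holds for every class field `F` of characters in the group
generated by `χ_1, …, χ_r` and all `i`: the central value `L(1, E_i/F)` exists and is not zero,
`L(1, E_i/F) / Ω(E_i/F) = q (L(1, E_i/K) / Ω(E_i/K))^[F:K]` with `q ∈ ℚˣ`, and so the assertion of the problem for `E_i` over `K`
implies the assertion of the problem for `E_i` over `F`.  (2) Every infinite such group `H` has an infinite subgroup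
`H₀` such that this holds for all tuples in `H₀`, of any length. -/
theorem result (K : Type) [Field K] [NumberField K] [IsPrincipalIdealRing (𝓞 K)] (σ : K →+* ℂ)
    (δ : K) (hK : IsFieldData K σ δ) (l : ℕ) (hl : l.Prime) (m : ℕ)
    (a b N : Fin m → 𝓞 K) (hΔ : ∀ i, 4 * a i ^ 3 + 27 * b i ^ 2 ≠ 0)
    (c : Fin m → Ideal (𝓞 K) → ℂ) (hf : ∀ i, IsNewform σ δ (N i) (c i))
    (hE : ∀ i, IsNewformOf (a i) (b i) (N i) (c i))
    (h0 : ∀ i, ∃ x, CentralValue (curveOver K (a i : K) (b i : K)) x ∧ x ≠ 0) (n : ℕ) :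
    (∀ r : ℕ, ∃ V : ℕ, ∀ H : Subgroup (Fam K), IsCharGroup l a b n H →
      ManyTuples V H r (AllNonzeroRational a b)) ∧
    ∀ H : Subgroup (Fam K), IsCharGroup l a b n H → (H : Set (Fam K)).Infinite →
      ∃ H₀ : Subgroup (Fam K), H₀ ≤ H ∧ (H₀ : Set (Fam K)).Infinite ∧
        ∀ r : ℕ, ∀ χ ∈ Tuples H₀ r, AllNonzeroRational a b χ := by
  classical
  have h : K4H55.BI.IQ K σ δ := ⟨hK.quadratic, hK.imaginary, inferInstance, hK.different⟩
  have hf' : ∀ i, K4H55.BI.BF σ δ (N i) (c i) := fun i => ⟨(hf i).level, (hf i).zero, (hf i).one,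
    (hf i).bound, (hf i).good, (hf i).bad, (hf i).invariant, (hf i).fricke⟩
  have hω : ∀ i, ∃ ω ∈ AddSubgroup.closure (K4H55.BK.Vals σ δ (N i) (c i)),
      ∀ l ∈ AddSubgroup.closure (K4H55.BK.Vals σ δ (N i) (c i)), ∃ j : ℤ, l = j * ω :=
    fun i => (hf i).cyclic
  have hloc : ∀ i, ∀ v : HeightOneSpectrum (𝓞 K),
      c i v.asIdeal = (W189.NF.aV (L7h15.BK.cv (a i : K) (b i : K)) v : ℂ) ∧
      (W189.NF.eV (L7h15.BK.cv (a i : K) (b i : K)) v : ℂ) =
        if N i ∈ v.asIdeal then 0 else (Ideal.absNorm v.asIdeal : ℂ) := by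
    intro i v
    have h2 := hE i v
    have h3 : curve (a i : K) (b i : K) = L7h15.BK.cv (a i : K) (b i : K) := rfl
    rw [h3, W189.NF.localPolynomial_eq] at h2
    have h4 := congrArg (fun p => Polynomial.coeff p 1) h2
    have h5 := congrArg (fun p => Polynomial.coeff p 2) h2
    simp only [Polynomial.coeff_map, Polynomial.coeff_add, Polynomial.coeff_sub,
      Polynomial.coeff_C_mul, Polynomial.coeff_X_pow, Polynomial.coeff_X, Polynomial.coeff_one] at h4 h5
    norm_num at h4 h5
    exact ⟨h4.symm, h5⟩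
  have h0' : ∀ i, ∃ x, L7h82.RL.CentralValue (L7h15.BK.cv (a i : K) (b i : K)) x ∧ x ≠ 0 := by
    intro i
    have e3 : curveOver K (a i : K) (b i : K) = L7h15.BK.cv (a i : K) (b i : K) := by
      unfold curveOver curve L7h15.BK.cv WeierstrassCurve.map
      simp
    obtain ⟨x, hx, hx0⟩ := h0 i
    rw [e3] at hx
    exact ⟨x, hx, hx0⟩
  have hHK : ∀ H : Subgroup (Fam K), IsCharGroup l a b n H → L7h81.UR.HR l n a b H := fun H hH =>
    ⟨hH.pow, hH.finite, hH.units, fun e he v hv i => hH.admissible e he v hv i⟩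
  refine ⟨fun r => ?_, fun H hH hinf => ?_⟩
  · obtain ⟨V, hV⟩ := L7h81.UR.uniR h a b N c hΔ hf' hloc hω h0' hl n r
    refine ⟨V, fun H hH => ?_⟩
    obtain ⟨S, h1, h2, h3⟩ := hV H (hHK H hH)
    have h4 : ∀ e : Fin r → Fam K, (∀ j, e j ∈ H) →
        ∃ x ∈ S, AllNonzeroRational a b (fun j => e j * x j) := by
      intro e he
      obtain ⟨x, hx, h5⟩ := h3 e he
      refine ⟨x, hx, fun F _ _ _ hF i => ?_⟩
      have := hF.galois
      exact concl_of (h5 F hF.abelian (rcd_of hF) i)
    exact ⟨⟨S, h1, fun x hx => h2 x hx, h4⟩, L7h81.UB.many_tuples hH.finite S h1 h2 h4⟩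
  · obtain ⟨H₀, h1, h2, h3⟩ := L7h81.UR.infR h a b N c hΔ hf' hloc hω h0' hl n H (hHK H hH) hinf
    refine ⟨H₀, h1, h2, fun r χ hχ F _ _ _ hF i => ?_⟩
    have := hF.galois
    exact concl_of (h3 r χ hχ F hF.abelian (rcd_of hF) i)

end Pool.Agent.Results.MP_90f827_nt.NonvanishingProportion
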