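import Pool.Agent.L7h82.RL.Fin

/-!
# The rationality of the central values `L(1, E/F) / Ω(E/F)` for all abelian extensions `F` of an imaginary quadratic
# field `K`, up to powers of one constant

`K` is an imaginary quadratic field of class number one and `E : y² = x³ + a x + b` an elliptic curve over `K` (not
necessarily defined over `ℚ`, and without complex multiplication in general), which belongs to a Bianchi newform `f` of
weight two and level `(n)`.  The problem asks for `L(1, E/F) ∈ ℚ Ω(E/F)` for every number field `F`.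

Theorem.  There is ONE constant `τ > 0` such that `L(1, E/F) ∈ ℚ Ω(E/F) τ^[F:K]` for all finite abelian extensions `F/K`
of conductor prime to `n`.  (There are infinitely many `F`, of unbounded degree, with any finite abelian group as the
Galois group.  The conductors are not squarefree in general.)  In particular: if the assertion of the problem is
true for `E/K` with `L(1, E/K) ≠ 0`, or for two such fields `F₁`, `F₂` of coprime degrees over `K` with
non-zero central values, then it is true for `E` over all such `F`; and if it fails for one `F`, then it fails for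
`E/K` if `L(1, E/K) ≠ 0`.

The proof does not use the theory of automorphic representations: the central value of the twist `f ⊗ χ` by a
primitive character `χ` of any conductor `(m)` is the combination `∑ conj χ(x) Φ(x/m)` of the values at cusps of the primitive
`Φ` of the harmonic differential of `f`, divided by the Gauss sum of `conj χ`.  The product of these sums over the
characters of `Gal(F/K)` is a rational integer times a power of one real number, the product of the Gauss sums is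
`± √(∏ N(𝔣(χ)))`, which is `√|d_F| / √|d_K|^[F:K]` by the formula for conductors and discriminants, and the product of the
Euler factors of the `f ⊗ χ` is that of `E/F` by the decomposition law, up to rational factors at the bad
places; the periods at all places of `F` are equal, because a lattice is determined by `g₂` and `g₃` (proved
here by the differential equation of `℘`).

The parts of the proof were written with helper15, helper50, helper53, helper60 and helper65.
-/

set_option autoImplicit false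

open NumberField IsDedekindDomain Matrix WeierstrassCurve Filter Topology

namespace Pool.Agent.Results.MP_90f827_nt.OneConstant

/-- `K` is an imaginary quadratic field, `σ` is one of its two embeddings in `ℂ`, and `δ` generates the
different of `K`: an `x ∈ K` is in `𝓞` if and only if `Tr(x y / δ) ∈ ℤ` for all `y ∈ 𝓞`. -/
structure IsFieldData (K : Type) [Field K] [NumberField K] (σ : K →+* ℂ) (δ : K) : Prop where
  quadratic : Module.finrank ℚ K = 2
  imaginary : ∃ x, (starRingEnd ℂ) (σ x) ≠ σ x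
  different : ∀ x : K, (∃ a : 𝓞 K, (a : K) = x) ↔
    ∀ y : 𝓞 K, ∃ m : ℤ, Algebra.trace ℚ K (x * y / δ) = m

/-- `h(y) = ∫_0^∞ exp(-1/v - y v) dv = 2 y^(-1/2) K₁(2 √y)`, with the Bessel function `K₁`. -/
noncomputable def bessel (y : ℝ) : ℝ := ∫ v in Set.Ioi (0 : ℝ), Real.exp (-(1 / v) - y * v)

/-- The additive character `e(z) = exp(2πi (z/δ + conj (z/δ)))` of `ℂ`, trivial on `𝓞`. -/
noncomputable def addChar (δ z : ℂ) : ℂ :=
  Complex.exp (2 * Real.pi * Complex.I * (z / δ + (starRingEnd ℂ) (z / δ)))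

/-- The denominator `|c z + d|² + |c|² t²` of the action of the matrix `(a, b; c, d)` on the hyperbolic
space `{(z, t) : z ∈ ℂ, t > 0}`. -/
noncomputable def den (c d z : ℂ) (t : ℝ) : ℝ := ‖c * z + d‖ ^ 2 + ‖c‖ ^ 2 * t ^ 2

/-- The first coordinate `((a z + b) conj (c z + d) + a conj(c) t²) / (|c z + d|² + |c|² t²)` of the image
of `(z, t)` under the matrix `(a, b; c, d)`. -/
noncomputable def actZ (a b c d z : ℂ) (t : ℝ) : ℂ :=
  ((a * z + b) * (starRingEnd ℂ) (c * z + d) + a * (starRingEnd ℂ) c * (t : ℂ) ^ 2) /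
    (den c d z t : ℂ)

/-- The second coordinate, for a matrix of determinant one; in general it is `|ad - bc|` times this. -/
noncomputable def actT (c d z : ℂ) (t : ℝ) : ℝ := t / den c d z t

section field
variable {K : Type} [Field K] [NumberField K]

/-- The function `Φ(z, t) = ∑_{x ∈ 𝓞} c((x)) t² h(N(x) (2πt/|δ|)²) e(x z)
  = (|δ|/π) ∑_{x ≠ 0} (c((x))/|x|) t K₁(4π|x|t/|δ|) e(x z)` on the hyperbolic space, with the coefficients `c`.
Up to a constant factor it is the primitive, zero at the cusp `∞`, of the harmonic differential of the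
form of weight two with the Fourier coefficients `c`: its derivative by `t` is
`-4 ∑_{x ≠ 0} c((x)) t K₀(4π|x|t/|δ|) e(x z)`. -/
noncomputable def primitive (σ : K →+* ℂ) (δ : K) (c : Ideal (𝓞 K) → ℂ) (z : ℂ) (t : ℝ) : ℂ :=
  ∑' x : 𝓞 K, c (Ideal.span {x}) * ((t ^ 2 * bessel (Ideal.absNorm (Ideal.span {x}) *
    (2 * Real.pi * t / ‖σ δ‖) ^ 2) : ℝ) : ℂ) * addChar (σ δ) (σ x * z)

/-- The group `Λ` generated by the values of the primitive `Φ` at the cusps `x/m`, `m ≠ 0` prime to the level (that is,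
by the limits of `Φ(x/m, t)` for `t → 0`). -/
def Lam (σ : K →+* ℂ) (δ : K) (n : 𝓞 K) (c : Ideal (𝓞 K) → ℂ) : AddSubgroup ℂ :=
  AddSubgroup.closure {z | ∃ x m : 𝓞 K, m ≠ 0 ∧ IsCoprime m n ∧
    Tendsto (fun t => primitive σ δ c (σ x / σ m) t) (𝓝[>] 0) (𝓝 z)}

/-- The numbers `c(I)` are the Hecke eigenvalues of a Bianchi newform `f` of weight two, level `(n)` and
trivial character over `K`, with rational eigenvalues: they satisfy `c(𝓞) = 1`, the (trivial) bound `c(I) = O(N(I))`
and the Hecke relations `c(v I) = c(v) c(I)` for `v ∤ I`, `c(v² I) = c(v) c(v I) - N(v) c(I)` for the primes `v ∤ n`, and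
`c(v I) = c(v) c(I)` for `v ∣ n`; the differential `dΦ` of the function `Φ` with the coefficients `c` is
invariant under `Γ₀(n)`, that is, `Φ(γ P) - Φ(P)` is a constant for every `γ ∈ Γ₀(n)`; `dΦ` is an
eigenform, with the eigenvalue `±1`, of the Fricke involution `W = (0, -1; n, 0)`; and the group `Λ` of the values of `Φ` at
cusps is cyclic (this is so for rational eigenvalues, by multiplicity one and the theorem of Manin, Drinfeld and
Kurčanov: the quotient of `H₁(Γ₀(n), cusps; ℤ)` which belongs to `f` has rank one). -/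
structure IsNewform (σ : K →+* ℂ) (δ : K) (n : 𝓞 K) (c : Ideal (𝓞 K) → ℂ) : Prop where
  level : n ≠ 0
  zero : c ⊥ = 0
  one : c ⊤ = 1
  bound : ∃ C : ℝ, ∀ I, ‖c I‖ ≤ C * Ideal.absNorm I
  good : ∀ v : HeightOneSpectrum (𝓞 K), n ∉ v.asIdeal → ∀ I,
    (¬ v.asIdeal ∣ I → c (v.asIdeal * I) = c v.asIdeal * c I) ∧
    c (v.asIdeal * (v.asIdeal * I)) = c v.asIdeal * c (v.asIdeal * I) -
      Ideal.absNorm v.asIdeal * c I
  bad : ∀ v : HeightOneSpectrum (𝓞 K), n ∈ v.asIdeal → ∀ I,
    c (v.asIdeal * I) = c v.asIdeal * c I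
  invariant : ∃ κ : SpecialLinearGroup (Fin 2) (𝓞 K) → ℂ,
    ∀ γ : SpecialLinearGroup (Fin 2) (𝓞 K), n ∣ γ.1 1 0 → ∀ (z : ℂ) (t : ℝ), 0 < t →
      primitive σ δ c (actZ (σ (γ.1 0 0)) (σ (γ.1 0 1)) (σ (γ.1 1 0)) (σ (γ.1 1 1)) z t)
        (actT (σ (γ.1 1 0)) (σ (γ.1 1 1)) z t) = primitive σ δ c z t + κ γ
  fricke : ∃ w κ : ℂ, w * w = 1 ∧ ∀ (z : ℂ) (t : ℝ), 0 < t →
    primitive σ δ c (actZ 0 (-1) (σ n) 0 z t) (‖σ n‖ * actT (σ n) 0 z t) =
      -w * primitive σ δ c z t + κ
  cyclic : ∃ ω ∈ Lam σ δ n c, ∀ l ∈ Lam σ δ n c, ∃ j : ℤ, l = j * ω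

/-- The curve `E : y² = x³ + a x + b` over `K`. -/
def curve (a b : K) : WeierstrassCurve K := ⟨0, 0, 0, a, b⟩

open Classical in
/-- `f` is the newform of `E : y² = x³ + a x + b`: the Euler factors of `f` and of `E` agree at all the places `v` of
`K`, that is, the local polynomial of `E` at `v` (Mathlib's `WeierstrassCurve.localPolynomial`) is
`1 - c(v) X + N(v) X²`, without the last term if `v ∣ n`. -/
def IsNewformOf (a b n : 𝓞 K) (c : Ideal (𝓞 K) → ℂ) : Prop :=
  ∀ v : HeightOneSpectrum (𝓞 K),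
    (((curve (a : K) (b : K)).baseChange (v.adicCompletion K)).localPolynomial
      (v.adicCompletionIntegers K)).map (Int.castRingHom ℂ) =
      1 - Polynomial.C (c v.asIdeal) * Polynomial.X +
        Polynomial.C (if n ∈ v.asIdeal then 0 else (Ideal.absNorm v.asIdeal : ℂ)) *
          Polynomial.X ^ 2

/-- The curve `E : y² = x³ + a x + b` over the extension `F` of `K`. -/
def curveOver (F : Type) [Field F] [Algebra K F] (a b : K) : WeierstrassCurve F :=
  (curve a b).map (algebraMap K F)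

/-- `χ` is a character of `K` of conductor `𝔣`, as a function on `𝓞` (`K` has class number one): a primitive character
modulo `𝔣`, trivial on the units, and zero on the `x` which are not prime to `𝔣`. -/
structure IsCharacter (𝔣 : Ideal (𝓞 K)) (χ : 𝓞 K → ℂ) : Prop where
  conductor : 𝔣 ≠ ⊥
  one : χ 1 = 1
  mul : ∀ x y, χ (x * y) = χ x * χ y
  zero : ∀ x, χ x = 0 ↔ ∃ v : HeightOneSpectrum (𝓞 K), 𝔣 ≤ v.asIdeal ∧ x ∈ v.asIdeal
  periodic : ∀ x y, x - y ∈ 𝔣 → χ x = χ y
  units : ∀ u, IsUnit u → χ u = 1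
  primitive : ∀ 𝔡 : Ideal (𝓞 K), 𝔣 < 𝔡 → ∃ x, x - 1 ∈ 𝔡 ∧ χ x ≠ 0 ∧ χ x ≠ 1

section extension

variable (F : Type) [Field F] [NumberField F] [Algebra K F]

/-- The places `u` of `F` above `v`. -/
def Above (v : HeightOneSpectrum (𝓞 K)) : Type :=
  {u : HeightOneSpectrum (𝓞 F) // u.asIdeal.comap (algebraMap (𝓞 K) (𝓞 F)) = v.asIdeal}

/-- The Frobenius automorphisms at the place `u` of `F` above `v`: the `t ∈ Gal(F/K)` with `t x = x ^ N(v)`
modulo `u` for all the integers `x` of `F`.  They are a coset of the inertia group of `u`. -/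
def FrobSet (v : HeightOneSpectrum (𝓞 K)) (u : HeightOneSpectrum (𝓞 F)) : Set (F ≃ₐ[K] F) :=
  {t | ∀ x : 𝓞 F, t • x - x ^ Ideal.absNorm v.asIdeal ∈ u.asIdeal}

/-- The law of reciprocity for the character `ψ` of `Gal(F/K)` and the character `χ` of `K` of conductor `𝔣`: the places
`v ∣ 𝔣` are ramified for `ψ` (`ψ` is not trivial on the inertia groups), and `ψ(t) = χ(v)` for all places `v ∤ 𝔣` of `K` and all
Frobenius automorphisms `t ∈ Gal(F/K)` at places of `F` above `v`. -/
structure Corresponds [IsPrincipalIdealRing (𝓞 K)] (ψ : (F ≃ₐ[K] F) →* ℂˣ) (𝔣 : Ideal (𝓞 K))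
    (χ : 𝓞 K → ℂ) : Prop where
  ramified : ∀ v : HeightOneSpectrum (𝓞 K), 𝔣 ≤ v.asIdeal → ∀ u : Above F v,
    ∃ t : F ≃ₐ[K] F, (∀ x : 𝓞 F, t • x - x ∈ u.1.asIdeal) ∧ ψ t ≠ 1
  frobenius : ∀ v : HeightOneSpectrum (𝓞 K), ¬ 𝔣 ≤ v.asIdeal → ∀ u : Above F v, ∀ t ∈ FrobSet F v u.1,
    (ψ t : ℂ) = χ (Submodule.IsPrincipal.generator v.asIdeal)

/-- `F/K` is a finite abelian extension of conductor prime to `n`.  To each character `ψ` of `Gal(F/K)` corresponds
(by the law of reciprocity of class field theory) a character `χ ψ` of `K`, its conductor `𝔣 ψ` is prime to `n`, and the formula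
for conductors and discriminants `|d_F| = |d_K|^[F:K] ∏ N(𝔣 ψ)` holds.  (The law of reciprocity and the formula are true for
every abelian extension; they are not in Mathlib.) -/
structure IsAbelianExtension [IsPrincipalIdealRing (𝓞 K)] (n : 𝓞 K) : Prop where
  galois : IsGalois K F
  abelian : ∀ s t : F ≃ₐ[K] F, s * t = t * s
  reciprocity : ∃ (𝔣 : ((F ≃ₐ[K] F) →* ℂˣ) → Ideal (𝓞 K)) (χ : ((F ≃ₐ[K] F) →* ℂˣ) → 𝓞 K → ℂ),
    (∀ ψ, IsCharacter (𝔣 ψ) (χ ψ)) ∧ (∀ ψ, Corresponds F ψ (𝔣 ψ) (χ ψ)) ∧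
    (∀ ψ, ∀ v : HeightOneSpectrum (𝓞 K), 𝔣 ψ ≤ v.asIdeal → n ∉ v.asIdeal) ∧
    |(discr F : ℝ)| = |(discr K : ℝ)| ^ Module.finrank K F * ∏ᶠ ψ, (Ideal.absNorm (𝔣 ψ) : ℝ)

end extension

/-- `x = L(1, E)` for the elliptic curve `E` over the number field `F`: the value at `1` of an analytic
continuation of the `L`-series of `E` (Mathlib's `WeierstrassCurve.LSeries`) from `Re s > 2` to a connected open set
containing `1`. -/
def CentralValue {F : Type} [Field F] [NumberField F] (E : WeierstrassCurve F) (x : ℂ) : Prop :=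
  ∃ (U : Set ℂ) (Φ : ℂ → ℂ), IsOpen U ∧ IsConnected U ∧ {s : ℂ | (2 : ℝ) < s.re} ⊆ U ∧ (1 : ℂ) ∈ U ∧
    AnalyticOnNhd ℂ Φ U ∧ (∀ s : ℂ, (2 : ℝ) < s.re → Φ s = E.LSeries s) ∧ Φ 1 = x

/-- `Ω = Ω(E)` for the elliptic curve `E : y² = x³ + a x + b` over the number field `F` without real places and the
differential `dx/(2y)`: `Ω = |d_F|^(1/2) ∏ Im(Ω₁ conj Ω₂)`, where the product is over the archimedean places `w` of `F`,
and `Ω₁`, `Ω₂` is a basis of the lattice with `g₂ = -4 e(a)`, `g₃ = -4 e(b)` (that is, `(℘, ℘'/2)` is a parametrization of the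
curve `y² = x³ + e(a) x + e(b)`), for a chosen embedding `e` which belongs to the place `w`. -/
def IsOmega (F : Type) [Field F] [NumberField F] (a b : F) (Ω : ℝ) : Prop :=
  ∃ (e : InfinitePlace F → (F →+* ℂ)) (L : InfinitePlace F → PeriodPair),
    (∀ w, InfinitePlace.mk (e w) = w ∧ w.IsComplex ∧ (L w).g₂ = -4 * e w a ∧ (L w).g₃ = -4 * e w b) ∧
    Ω = √|(discr F : ℝ)| * ∏ w, ((L w).ω₁ * (starRingEnd ℂ) (L w).ω₂).im

/-- The assertion of the problem for `E : y² = x³ + a x + b` over `F`, in the form `L(1, E) ∈ ℚ Ω(E)`. -/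
def IsRational (F : Type) [Field F] [NumberField F] [Algebra K F] (a b : K) : Prop :=
  ∀ (x : ℂ) (Ω : ℝ), CentralValue (curveOver F a b) x → IsOmega F (algebraMap K F a) (algebraMap K F b) Ω →
    ∃ q : ℚ, x = q * Ω

/-- The assertion of the problem for `E : y² = x³ + a x + b` over `F`, and `L(1, E) ≠ 0`. -/
def IsRationalNonzero (F : Type) [Field F] [NumberField F] [Algebra K F] (a b : K) : Prop :=
  ∃ (x : ℂ) (Ω : ℝ) (q : ℚ), CentralValue (curveOver F a b) x ∧
    IsOmega F (algebraMap K F a) (algebraMap K F b) Ω ∧ q ≠ 0 ∧ x = q * Ω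

end field

section proof

/-- the trivial extension -/
lemma self_ext {K : Type} [Field K] [NumberField K] [IsPrincipalIdealRing (𝓞 K)] (n : 𝓞 K) :
    IsAbelianExtension K n := by
  have h1 : ∀ t : K ≃ₐ[K] K, t = 1 := fun t => AlgEquiv.ext fun x => t.commutes x
  refine ⟨inferInstance, fun s t => by rw [h1 s, h1 t], fun _ => ⊤, fun _ _ => 1, fun ψ => ?_, fun ψ => ?_,
    fun ψ v hv => ?_, ?_⟩
  · refine ⟨top_ne_bot, rfl, fun x y => (mul_one 1).symm, fun x => ?_, fun x y _ => rfl, fun u _ => rfl,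
      fun 𝔡 h𝔡 => absurd h𝔡 not_top_lt⟩
    constructor
    · intro h2
      exact absurd h2 one_ne_zero
    · rintro ⟨v, hv, -⟩
      exact absurd (top_le_iff.1 hv) v.isPrime.ne_top
  · refine ⟨fun v hv => absurd (top_le_iff.1 hv) v.isPrime.ne_top, fun v _ u t _ => ?_⟩
    rw [h1 t, map_one]
    rfl
  · exact absurd (top_le_iff.1 hv) v.isPrime.ne_top
  · rw [Module.finrank_self, pow_one]
    simp

lemma rat_gcd {τ : ℝ} (hτ : 0 < τ) {d₁ d₂ d : ℕ} {r₁ r₂ : ℚ} (h1 : τ ^ d₁ = r₁) (h2 : τ ^ d₂ = r₂)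
    (h : d₁.gcd d₂ ∣ d) : ∃ r : ℚ, τ ^ d = r := by
  obtain ⟨k, rfl⟩ := h
  refine ⟨(r₁ ^ (d₁.gcdA d₂) * r₂ ^ (d₁.gcdB d₂)) ^ k, ?_⟩
  rw [pow_mul]
  push_cast
  congr 1
  rw [← h1, ← h2, ← zpow_natCast τ (d₁.gcd d₂), Nat.gcd_eq_gcd_ab, zpow_add₀ hτ.ne', _root_.zpow_mul, _root_.zpow_mul,
    zpow_natCast, zpow_natCast]

lemma omega_ne {F : Type} [Field F] [NumberField F] {a b : F} {Ω : ℝ} (h : IsOmega F a b Ω) : Ω ≠ 0 := by
  obtain ⟨e, L, -, rfl⟩ := h
  refine mul_ne_zero ?_ (Finset.prod_ne_zero_iff.2 fun w _ => L7h82.RL.im_ne (L w))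
  have : (discr F : ℝ) ≠ 0 := by exact_mod_cast discr_ne_zero F
  positivity

end proof

open scoped Classical in
/-- **Theorem.** Let `K` be an imaginary quadratic field of class number one, `E : y² = x³ + a x + b` an elliptic
curve over `K` with the Bianchi newform `f` of level `(n)`.

1. For every finite abelian extension `F/K` of conductor prime to `n`, the `L`-series of `E/F` has a central value.
2. There is one constant `τ > 0` with `L(1, E/F) ∈ ℚ Ω(E/F) τ^[F:K]` for all of these `F`.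
3. If the assertion of the problem is true for `E/F₁` and for `E/F₂`, with central values `≠ 0`, it is true for `E/F` for
   all `F` such that `gcd([F₁:K], [F₂:K])` divides `[F:K]`.
4. If it is true for `E/K`, and `L(1, E/K) ≠ 0`, then it is true for `E/F` for all `F`. -/
theorem result (K : Type) [Field K] [NumberField K] [IsPrincipalIdealRing (𝓞 K)] (σ : K →+* ℂ)
    (δ : K) (hK : IsFieldData K σ δ) (a b n : 𝓞 K) (hΔ : 4 * a ^ 3 + 27 * b ^ 2 ≠ 0)
    (c : Ideal (𝓞 K) → ℂ) (hf : IsNewform σ δ n c) (hE : IsNewformOf a b n c) :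
    (∀ (F : Type) [Field F] [NumberField F] [Algebra K F], IsAbelianExtension F n →
      ∃ x, CentralValue (curveOver F (a : K) (b : K)) x) ∧
    (∃ τ : ℝ, 0 < τ ∧ ∀ (F : Type) [Field F] [NumberField F] [Algebra K F], IsAbelianExtension F n →
      ∀ (x : ℂ) (Ω : ℝ), CentralValue (curveOver F (a : K) (b : K)) x →
        IsOmega F (algebraMap K F a) (algebraMap K F b) Ω →
        ∃ q : ℚ, x = q * (Ω * τ ^ Module.finrank K F)) ∧
    (∀ (F₁ F₂ F : Type) [Field F₁] [NumberField F₁] [Algebra K F₁] [Field F₂] [NumberField F₂]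
      [Algebra K F₂] [Field F] [NumberField F] [Algebra K F],
      IsAbelianExtension F₁ n → IsAbelianExtension F₂ n → IsAbelianExtension F n →
      IsRationalNonzero F₁ (a : K) (b : K) → IsRationalNonzero F₂ (a : K) (b : K) →
      (Module.finrank K F₁).gcd (Module.finrank K F₂) ∣ Module.finrank K F →
      IsRational F (a : K) (b : K)) ∧
    (IsRationalNonzero K (a : K) (b : K) →
      ∀ (F : Type) [Field F] [NumberField F] [Algebra K F], IsAbelianExtension F n →
        IsRational F (a : K) (b : K)) := by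
  classical
  have h : K4H55.BI.IQ K σ δ := ⟨hK.quadratic, hK.imaginary, inferInstance, hK.different⟩
  have hf' : K4H55.BI.BF σ δ n c := ⟨hf.level, hf.zero, hf.one, hf.bound, hf.good, hf.bad,
    hf.invariant, hf.fricke⟩
  obtain ⟨ω, hω', hω⟩ := hf.cyclic
  -- the local factors
  have hloc : ∀ v : HeightOneSpectrum (𝓞 K),
      c v.asIdeal = (W189.NF.aV (L7h15.BK.cv (a : K) (b : K)) v : ℂ) ∧
      (W189.NF.eV (L7h15.BK.cv (a : K) (b : K)) v : ℂ) =
        if n ∈ v.asIdeal then 0 else (Ideal.absNorm v.asIdeal : ℂ) := by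
    intro v
    have h2 := hE v
    have h3 : curve (a : K) (b : K) = L7h15.BK.cv (a : K) (b : K) := rfl
    rw [h3, W189.NF.localPolynomial_eq] at h2
    have h4 := congrArg (fun p => Polynomial.coeff p 1) h2
    have h5 := congrArg (fun p => Polynomial.coeff p 2) h2
    simp only [Polynomial.coeff_map, Polynomial.coeff_add, Polynomial.coeff_sub,
      Polynomial.coeff_C_mul, Polynomial.coeff_X_pow, Polynomial.coeff_X, Polynomial.coeff_one] at h4 h5
    norm_num at h4 h5
    exact ⟨h4.symm, h5⟩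
  obtain ⟨τ, hτ, hfin⟩ := L7h82.RL.fin h hf' hΔ hloc hω' hω
  have key : ∀ (F : Type) [Field F] [NumberField F] [Algebra K F], IsAbelianExtension F n →
      (∃ x, CentralValue (curveOver F (a : K) (b : K)) x) ∧
      ∀ (x : ℂ) (Ω : ℝ), CentralValue (curveOver F (a : K) (b : K)) x →
        IsOmega F (algebraMap K F a) (algebraMap K F b) Ω →
        ∃ q : ℚ, x = q * (Ω * τ ^ Module.finrank K F) := by
    intro F _ _ _ hF
    have := hF.galois
    obtain ⟨𝔣, χ, hχ, hc, hn, hd⟩ := hF.reciprocity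
    have e2 : curveOver F (a : K) (b : K) = L7h15.BK.cv (algebraMap K F (a : K)) (algebraMap K F (b : K)) := by
      unfold curveOver curve L7h15.BK.cv WeierstrassCurve.map
      simp
    have hR : ∀ ψ, L7h82.RL.RC ψ (𝔣 ψ) (χ ψ) := fun ψ => ⟨⟨(hχ ψ).conductor, (hχ ψ).one, (hχ ψ).mul,
      (hχ ψ).zero, (hχ ψ).periodic, (hχ ψ).units, (hχ ψ).primitive⟩,
      fun v hv u hu => (hc ψ).ramified v hv ⟨u, hu⟩,
      fun v hv u hu t ht => (hc ψ).frobenius v hv ⟨u, hu⟩ t ht⟩
    obtain ⟨k1, k2⟩ := hfin F hF.abelian 𝔣 χ hR hn hd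
    rw [e2]
    refine ⟨k1, fun x Ω hx hΩ => ?_⟩
    obtain ⟨q, hq⟩ := k2 x Ω hx hΩ
    exact ⟨q, by rw [hq, mul_assoc]⟩
  have hrat : ∀ (F : Type) [Field F] [NumberField F] [Algebra K F], IsAbelianExtension F n →
      IsRationalNonzero F (a : K) (b : K) → ∃ r : ℚ, τ ^ Module.finrank K F = r := by
    rintro F _ _ _ hF ⟨x, Ω, q, hx, hΩ, hq, hxq⟩
    obtain ⟨q', hq'⟩ := (key F hF).2 x Ω hx hΩ
    have hΩ0 := omega_ne hΩ
    have h1 : (q : ℝ) * Ω = q' * (Ω * τ ^ Module.finrank K F) := by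
      have : ((q : ℂ)) * Ω = q' * (Ω * τ ^ Module.finrank K F) := by rw [← hxq, hq']
      exact_mod_cast this
    have hq0 : (q' : ℝ) ≠ 0 := by
      intro h0
      rw [h0, zero_mul] at h1
      exact (mul_ne_zero (by exact_mod_cast hq) hΩ0) h1
    refine ⟨q / q', ?_⟩
    push_cast
    rw [eq_div_iff hq0]
    apply mul_left_cancel₀ hΩ0
    linear_combination -h1
  have hthree : ∀ (F₁ F₂ F : Type) [Field F₁] [NumberField F₁] [Algebra K F₁] [Field F₂] [NumberField F₂]
      [Algebra K F₂] [Field F] [NumberField F] [Algebra K F],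
      IsAbelianExtension F₁ n → IsAbelianExtension F₂ n → IsAbelianExtension F n →
      IsRationalNonzero F₁ (a : K) (b : K) → IsRationalNonzero F₂ (a : K) (b : K) →
      (Module.finrank K F₁).gcd (Module.finrank K F₂) ∣ Module.finrank K F →
      IsRational F (a : K) (b : K) := by
    intro F₁ F₂ F _ _ _ _ _ _ _ _ _ h1 h2 hF r1 r2 hd x Ω hx hΩ
    obtain ⟨q1, hq1⟩ := hrat F₁ h1 r1
    obtain ⟨q2, hq2⟩ := hrat F₂ h2 r2
    obtain ⟨r, hr⟩ := rat_gcd hτ hq1 hq2 hd
    obtain ⟨q, hq⟩ := (key F hF).2 x Ω hx hΩ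
    refine ⟨q * r, ?_⟩
    have hr' : (τ : ℂ) ^ Module.finrank K F = (r : ℂ) := by exact_mod_cast congrArg (fun t : ℝ => (t : ℂ)) hr
    rw [hq, hr']
    push_cast
    ring
  refine ⟨fun F _ _ _ hF => (key F hF).1, ⟨τ, hτ, fun F _ _ _ hF => (key F hF).2⟩, hthree, ?_⟩
  intro hK' F _ _ _ hF
  exact hthree K K F (self_ext n) (self_ext n) hF hK' hK' (by rw [Nat.gcd_self, Module.finrank_self]; exact one_dvd _)

end Pool.Agent.Results.MP_90f827_nt.OneConstant
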