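import Pool.Agent.L7h81.TW.All

/-!
# The central values of all quadratic twists `E_d`, `d ∈ F`, of an elliptic curve over `K`, for the abelian extensions `F` of an
# imaginary quadratic field `K`

`K` is an imaginary quadratic field of class number one, and `E_i : y² = x³ + a_i x + b_i`, `i = 1, …, m`, are
elliptic curves over `K` (not necessarily defined over `ℚ`, and without complex multiplication in general), which
belong to Bianchi newforms of weight two and levels `(N_i)`.  Let `F/K` be an abelian extension and `M = F(√d)`, `d ∈ 𝓞_F`, a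
quadratic extension of `F` which is abelian over `K`, with a conductor prime to `N_i`.  The twist
`E_{i,d} : y² = x³ + a_i d² x + b_i d³` is an elliptic curve over `F` which is not defined over `K` in general (it is defined over `K`,
up to isomorphism, if `d` is in `K` times a square of `F`; this is not so, for example, if `M/K` is cyclic of degree four).

Theorem.  (1) There is ONE constant `τ_i > 0` such that `L(1, E_i/F) ∈ ℚ Ω(E_i/F) τ_i^[F:K]` and
`L(1, E_{i,d}/F) ∈ ℚ Ω(E_{i,d}/F) τ_i^[F:K]` for all `F`, `M`, `d`.  (2) If the assertion of the problem is true for `E_i/K`, with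
`L(1, E_i/K) ≠ 0`, then `L(1, E_{i,d}/F) ∈ ℚ Ω(E_{i,d}/F)` for all `F`, `M`, `d`.  (3) If `L(1, E_i/K) ≠ 0` for all `i`, then for
all `n`, `r` there is `V` such that for every group `H` (finite or infinite, as sparse as one likes) of characters of `K` of
order dividing `2 ^ n` whose conductors are products of different places `v` not dividing `2 (4a_i³ + 27b_i²)`, with an odd number of
points of the `E_i` over the residue field, a proportion at least `2 ^ (-V)` of the `r`-tuples in `H` satisfies: for all class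
fields `F ⊂ M = F(√d)` of characters in the group generated by the tuple and all `i`, `L(1, E_{i,d}/F) ≠ 0` and
`L(1, E_{i,d}/F) / Ω(E_{i,d}/F) = q (L(1, E_i/K) / Ω(E_i/K))^[F:K]`, `q ∈ ℚˣ`; so the assertion of the problem for `E_i/K` implies the
assertion of the problem, with a nonzero value, for all these twists.  Every infinite such `H` has an infinite subgroup
`H₀` such that this holds for all tuples in `H₀`, of any length.

The proof.  `L(E_{i,d}/F, s)` is the product of the `L(f_i ⊗ χ, s)` over the characters `χ` of `Gal(M/K)` which are not trivial on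
`Gal(M/F)`, up to the factors at finitely many places, which are compared at `s = 1`.  The set of these characters is stable under
the Galois group of `ℚ(ζ)`, so the product of the sums of the values of the modular primitive at the cusps is
rational, and the product of the Gauss sums is `± √(|d_M| / (|d_F| |d_K|^[F:K]))`; by the discriminant of `F(√d)/F` this is
`√|N(d)|` times `√(|d_F| / |d_K|^[F:K])` and a rational number.  The period of the twist is `√|d_F| ∏_w P_w / √|N(d)|`, where `P_w` are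
the periods of `E_i`.  The nonvanishing is that of `NonvanishingProportion` for the class field `M`.

The parts of the proof were written with helper15, helper60 and helper65; it uses the library of `OneConstant` and
`RationalSquares` (helper15, helper50, helper53, helper60, helper65, helper82).
-/

set_option autoImplicit false

open NumberField IsDedekindDomain Matrix WeierstrassCurve Filter Topology

namespace Pool.Agent.Results.MP_90f827_nt.QuadraticTwists

/-- `K` is an imaginary quadratic field, `σ` is one of its two embeddings in `ℂ`, and `δ` generates the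
different of `K`: an `x ∈ K` is in `𝓞` if and only if `Tr(x y / δ) ∈ ℤ` for all `y ∈ 𝓞`. -/
structure IsFieldData (K : Type) [Field K] [NumberField K] (σ : K →+* ℂ) (δ : K) : Prop where
  quadratic : Module.finrank ℚ K = 2
  imaginary : ∃ x, (starRingEnd ℂ) (σ x) ≠ σ x
  different : ∀ x : K, (∃ a : 𝓞 K, (a : K) = x) ↔
    ∀ y : 𝓞 K, ∃ m : ℤ, Algebra.trace ℚ K (x * y / δ) = m

/-- `h(y) = ∫_0^∞ exp(-1/v - y v) dv = 2 y^(-1/2) K₁(2 √y)`, with the Bessel function `K₁`. -/
noncomputable def bessel (y : ℝ) : ℝ := ∫ v in Set.Ioi (0 : ℝ), Real.exp (-(1 / v) - y * v)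

/-- The additive character `e(z) = exp(2πi (z/δ + conj (z/δ)))` of `ℂ`, trivial on `𝓞`. -/
noncomputable def addChar (δ z : ℂ) : ℂ :=
  Complex.exp (2 * Real.pi * Complex.I * (z / δ + (starRingEnd ℂ) (z / δ)))

/-- The denominator `|c z + d|² + |c|² t²` of the action of the matrix `(a, b; c, d)` on the hyperbolic
space `{(z, t) : z ∈ ℂ, t > 0}`. -/
noncomputable def den (c d z : ℂ) (t : ℝ) : ℝ := ‖c * z + d‖ ^ 2 + ‖c‖ ^ 2 * t ^ 2

/-- The first coordinate `((a z + b) conj (c z + d) + a conj(c) t²) / (|c z + d|² + |c|² t²)` of the image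
of `(z, t)` under the matrix `(a, b; c, d)`. -/
noncomputable def actZ (a b c d z : ℂ) (t : ℝ) : ℂ :=
  ((a * z + b) * (starRingEnd ℂ) (c * z + d) + a * (starRingEnd ℂ) c * (t : ℂ) ^ 2) /
    (den c d z t : ℂ)

/-- The second coordinate, for a matrix of determinant one; in general it is `|ad - bc|` times this. -/
noncomputable def actT (c d z : ℂ) (t : ℝ) : ℝ := t / den c d z t

section field
variable {K : Type} [Field K] [NumberField K]

/-- The function `Φ(z, t) = ∑_{x ∈ 𝓞} c((x)) t² h(N(x) (2πt/|δ|)²) e(x z)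
  = (|δ|/π) ∑_{x ≠ 0} (c((x))/|x|) t K₁(4π|x|t/|δ|) e(x z)` on the hyperbolic space, with the coefficients `c`.
Up to a constant factor it is the primitive, zero at the cusp `∞`, of the harmonic differential of the
form of weight two with the Fourier coefficients `c`: its derivative by `t` is
`-4 ∑_{x ≠ 0} c((x)) t K₀(4π|x|t/|δ|) e(x z)`. -/
noncomputable def primitive (σ : K →+* ℂ) (δ : K) (c : Ideal (𝓞 K) → ℂ) (z : ℂ) (t : ℝ) : ℂ :=
  ∑' x : 𝓞 K, c (Ideal.span {x}) * ((t ^ 2 * bessel (Ideal.absNorm (Ideal.span {x}) *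
    (2 * Real.pi * t / ‖σ δ‖) ^ 2) : ℝ) : ℂ) * addChar (σ δ) (σ x * z)

/-- The group `Λ` generated by the values of the primitive `Φ` at the cusps `x/m`, `m ≠ 0` prime to the level (that is,
by the limits of `Φ(x/m, t)` for `t → 0`). -/
def Lam (σ : K →+* ℂ) (δ : K) (n : 𝓞 K) (c : Ideal (𝓞 K) → ℂ) : AddSubgroup ℂ :=
  AddSubgroup.closure {z | ∃ x m : 𝓞 K, m ≠ 0 ∧ IsCoprime m n ∧
    Tendsto (fun t => primitive σ δ c (σ x / σ m) t) (𝓝[>] 0) (𝓝 z)}

/-- The numbers `c(I)` are the Hecke eigenvalues of a Bianchi newform `f` of weight two, level `(n)` and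
trivial character over `K`, with rational eigenvalues: they satisfy `c(𝓞) = 1`, the (trivial) bound `c(I) = O(N(I))`
and the Hecke relations `c(v I) = c(v) c(I)` for `v ∤ I`, `c(v² I) = c(v) c(v I) - N(v) c(I)` for the primes `v ∤ n`, and
`c(v I) = c(v) c(I)` for `v ∣ n`; the differential `dΦ` of the function `Φ` with the coefficients `c` is
invariant under `Γ₀(n)`, that is, `Φ(γ P) - Φ(P)` is a constant for every `γ ∈ Γ₀(n)`; `dΦ` is an
eigenform, with the eigenvalue `±1`, of the Fricke involution `W = (0, -1; n, 0)`; and the group `Λ` of the values of `Φ` at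
cusps is cyclic (this is so for rational eigenvalues, by multiplicity one and the theorem of Manin, Drinfeld and
Kurčanov: the quotient of `H₁(Γ₀(n), cusps; ℤ)` which belongs to `f` has rank one). -/
structure IsNewform (σ : K →+* ℂ) (δ : K) (n : 𝓞 K) (c : Ideal (𝓞 K) → ℂ) : Prop where
  level : n ≠ 0
  zero : c ⊥ = 0
  one : c ⊤ = 1
  bound : ∃ C : ℝ, ∀ I, ‖c I‖ ≤ C * Ideal.absNorm I
  good : ∀ v : HeightOneSpectrum (𝓞 K), n ∉ v.asIdeal → ∀ I,
    (¬ v.asIdeal ∣ I → c (v.asIdeal * I) = c v.asIdeal * c I) ∧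
    c (v.asIdeal * (v.asIdeal * I)) = c v.asIdeal * c (v.asIdeal * I) -
      Ideal.absNorm v.asIdeal * c I
  bad : ∀ v : HeightOneSpectrum (𝓞 K), n ∈ v.asIdeal → ∀ I,
    c (v.asIdeal * I) = c v.asIdeal * c I
  invariant : ∃ κ : SpecialLinearGroup (Fin 2) (𝓞 K) → ℂ,
    ∀ γ : SpecialLinearGroup (Fin 2) (𝓞 K), n ∣ γ.1 1 0 → ∀ (z : ℂ) (t : ℝ), 0 < t →
      primitive σ δ c (actZ (σ (γ.1 0 0)) (σ (γ.1 0 1)) (σ (γ.1 1 0)) (σ (γ.1 1 1)) z t)
        (actT (σ (γ.1 1 0)) (σ (γ.1 1 1)) z t) = primitive σ δ c z t + κ γ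
  fricke : ∃ w κ : ℂ, w * w = 1 ∧ ∀ (z : ℂ) (t : ℝ), 0 < t →
    primitive σ δ c (actZ 0 (-1) (σ n) 0 z t) (‖σ n‖ * actT (σ n) 0 z t) =
      -w * primitive σ δ c z t + κ
  cyclic : ∃ ω ∈ Lam σ δ n c, ∀ l ∈ Lam σ δ n c, ∃ j : ℤ, l = j * ω

/-- The curve `E : y² = x³ + a x + b` over a field. -/
def curve {F : Type} [Field F] (a b : F) : WeierstrassCurve F := ⟨0, 0, 0, a, b⟩

open Classical in
/-- `f` is the newform of `E : y² = x³ + a x + b`: the Euler factors of `f` and of `E` agree at all the places `v` of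
`K`, that is, the local polynomial of `E` at `v` (Mathlib's `WeierstrassCurve.localPolynomial`) is
`1 - c(v) X + N(v) X²`, without the last term if `v ∣ n`. -/
def IsNewformOf (a b n : 𝓞 K) (c : Ideal (𝓞 K) → ℂ) : Prop :=
  ∀ v : HeightOneSpectrum (𝓞 K),
    (((curve (a : K) (b : K)).baseChange (v.adicCompletion K)).localPolynomial
      (v.adicCompletionIntegers K)).map (Int.castRingHom ℂ) =
      1 - Polynomial.C (c v.asIdeal) * Polynomial.X +
        Polynomial.C (if n ∈ v.asIdeal then 0 else (Ideal.absNorm v.asIdeal : ℂ)) *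
          Polynomial.X ^ 2

/-- The admissible places for one curve: `v ∤ 2 (4a³ + 27b²)`, and the number of the points of `E` over `𝓞/v` (with
the point at infinity) is prime to `l`. -/
def Admissible (l : ℕ) (a b : 𝓞 K) (v : HeightOneSpectrum (𝓞 K)) : Prop :=
  2 * (4 * a ^ 3 + 27 * b ^ 2) ∉ v.asIdeal ∧
    ¬ l ∣ Nat.card {x : (𝓞 K ⧸ v.asIdeal) × (𝓞 K ⧸ v.asIdeal) //
      x.2 ^ 2 = x.1 ^ 3 + Ideal.Quotient.mk v.asIdeal a * x.1 + Ideal.Quotient.mk v.asIdeal b} + 1

/-- The families `c = (c_v)` of characters `c_v` of the groups `(𝓞/v)ˣ`.  The family with `c_v = 1` except for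
the places `v` of a finite set stands for the character `∏ c_v` modulo the product of these places; if it is trivial
on the units of `𝓞`, this is a character of (the ideals of) `K` of squarefree conductor. -/
abbrev Fam (K : Type) [Field K] [NumberField K] : Type :=
  (v : HeightOneSpectrum (𝓞 K)) → (𝓞 K ⧸ v.asIdeal)ˣ →* ℂˣ

open Classical in
/-- The set of the `v` with `c_v ≠ 1` (if it is finite). -/
noncomputable def supp (c : Fam K) : Finset (HeightOneSpectrum (𝓞 K)) :=
  if h : {v | c v ≠ 1}.Finite then h.toFinset else ∅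

/-- The norm of the conductor. -/
noncomputable def conductorNorm (c : Fam K) : ℕ := ∏ v ∈ supp c, Ideal.absNorm v.asIdeal

open Classical in
/-- The value of the character at `x`. -/
noncomputable def value (c : Fam K) (x : 𝓞 K) : ℂ :=
  ∏ v ∈ supp c, if h : IsUnit (Ideal.Quotient.mk v.asIdeal x) then (c v h.unit : ℂ) else 0

/-- `H` is a group of characters of `K` of order dividing `l ^ n`, of conductors which are products of different
places, admissible for all the curves. -/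
structure IsCharGroup (l : ℕ) {m : ℕ} (a b : Fin m → 𝓞 K) (n : ℕ) (H : Subgroup (Fam K)) : Prop where
  pow : ∀ c ∈ H, c ^ (l ^ n) = 1
  finite : ∀ c ∈ H, {v | c v ≠ 1}.Finite
  units : ∀ c ∈ H, ∀ u : 𝓞 K, IsUnit u → value c u = 1
  admissible : ∀ c ∈ H, ∀ v, c v ≠ 1 → ∀ i, Admissible l (a i) (b i) v

/-- `χ` is a character of `K` of conductor `𝔣`, as a function on `𝓞` (`K` has class number one): a primitive character
modulo `𝔣`, trivial on the units, and zero on the `x` which are not prime to `𝔣`. -/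
structure IsCharacter (𝔣 : Ideal (𝓞 K)) (χ : 𝓞 K → ℂ) : Prop where
  conductor : 𝔣 ≠ ⊥
  one : χ 1 = 1
  mul : ∀ x y, χ (x * y) = χ x * χ y
  zero : ∀ x, χ x = 0 ↔ ∃ v : HeightOneSpectrum (𝓞 K), 𝔣 ≤ v.asIdeal ∧ x ∈ v.asIdeal
  periodic : ∀ x y, x - y ∈ 𝔣 → χ x = χ y
  units : ∀ u, IsUnit u → χ u = 1
  primitive : ∀ 𝔡 : Ideal (𝓞 K), 𝔣 < 𝔡 → ∃ x, x - 1 ∈ 𝔡 ∧ χ x ≠ 0 ∧ χ x ≠ 1

section extension

variable (F : Type) [Field F] [NumberField F] [Algebra K F]

/-- The places `u` of `F` above `v`. -/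
def Above (v : HeightOneSpectrum (𝓞 K)) : Type :=
  {u : HeightOneSpectrum (𝓞 F) // u.asIdeal.comap (algebraMap (𝓞 K) (𝓞 F)) = v.asIdeal}

/-- The Frobenius automorphisms at the place `u` of `F` above `v`: the `t ∈ Gal(F/K)` with `t x = x ^ N(v)`
modulo `u` for all the integers `x` of `F`.  They are a coset of the inertia group of `u`. -/
def FrobSet (v : HeightOneSpectrum (𝓞 K)) (u : HeightOneSpectrum (𝓞 F)) : Set (F ≃ₐ[K] F) :=
  {t | ∀ x : 𝓞 F, t • x - x ^ Ideal.absNorm v.asIdeal ∈ u.asIdeal}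

/-- The law of reciprocity for the character `ψ` of `Gal(F/K)` and the character `χ` of `K` of conductor `𝔣`: the places
`v ∣ 𝔣` are ramified for `ψ` (`ψ` is not trivial on the inertia groups), and `ψ(t) = χ(v)` for all places `v ∤ 𝔣` of `K` and all
Frobenius automorphisms `t ∈ Gal(F/K)` at places of `F` above `v`. -/
structure Corresponds [IsPrincipalIdealRing (𝓞 K)] (ψ : (F ≃ₐ[K] F) →* ℂˣ) (𝔣 : Ideal (𝓞 K))
    (χ : 𝓞 K → ℂ) : Prop where
  ramified : ∀ v : HeightOneSpectrum (𝓞 K), 𝔣 ≤ v.asIdeal → ∀ u : Above F v,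
    ∃ t : F ≃ₐ[K] F, (∀ x : 𝓞 F, t • x - x ∈ u.1.asIdeal) ∧ ψ t ≠ 1
  frobenius : ∀ v : HeightOneSpectrum (𝓞 K), ¬ 𝔣 ≤ v.asIdeal → ∀ u : Above F v, ∀ t ∈ FrobSet F v u.1,
    (ψ t : ℂ) = χ (Submodule.IsPrincipal.generator v.asIdeal)

/-- `F/K` is a finite abelian extension of conductor prime to `n`.  To each character `ψ` of `Gal(F/K)` corresponds
(by the law of reciprocity of class field theory) a character `χ ψ` of `K`, its conductor `𝔣 ψ` is prime to `n`, and the formula
for conductors and discriminants `|d_F| = |d_K|^[F:K] ∏ N(𝔣 ψ)` holds.  (The law of reciprocity and the formula are true for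
every abelian extension; they are not in Mathlib.) -/
structure IsAbelianExtension [IsPrincipalIdealRing (𝓞 K)] (n : 𝓞 K) : Prop where
  galois : IsGalois K F
  abelian : ∀ s t : F ≃ₐ[K] F, s * t = t * s
  reciprocity : ∃ (𝔣 : ((F ≃ₐ[K] F) →* ℂˣ) → Ideal (𝓞 K)) (χ : ((F ≃ₐ[K] F) →* ℂˣ) → 𝓞 K → ℂ),
    (∀ ψ, IsCharacter (𝔣 ψ) (χ ψ)) ∧ (∀ ψ, Corresponds F ψ (𝔣 ψ) (χ ψ)) ∧
    (∀ ψ, ∀ v : HeightOneSpectrum (𝓞 K), 𝔣 ψ ≤ v.asIdeal → n ∉ v.asIdeal) ∧
    |(discr F : ℝ)| = |(discr K : ℝ)| ^ Module.finrank K F * ∏ᶠ ψ, (Ideal.absNorm (𝔣 ψ) : ℝ)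

/-- `F` is a class field of characters of `K` in the group generated by `χ_1, …, χ_r`: `F/K` is an abelian
extension, to each character `ψ` of `Gal(F/K)` corresponds a character `e ψ = ∏ χ_j ^ J_j` of `K` with
the law of reciprocity: the places of the conductor of `e ψ` are those at which `ψ` is ramified (not trivial on
the inertia groups), and `ψ(t) = (e ψ)(v)` for all other places `v` of `K` and all Frobenius automorphisms
`t ∈ Gal(F/K)` at places of `F` above `v`; and the formula `|d_F| = |d_K|^[F:K] ∏ N(𝔣(e ψ))` for conductors and discriminants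
holds.  (By class field theory these are the fields between `K` and the class field of the group generated by
`χ_1, …, χ_r`; the law of reciprocity and the formula are not in Mathlib.) -/
structure IsClassField [IsPrincipalIdealRing (𝓞 K)] {r : ℕ} (χ : Fin r → Fam K) : Prop where
  galois : IsGalois K F
  abelian : ∀ s t : F ≃ₐ[K] F, s * t = t * s
  reciprocity : ∃ e : ((F ≃ₐ[K] F) →* ℂˣ) → Fam K,
    (∀ ψ, ∃ J : Fin r → ℕ, e ψ = ∏ j, χ j ^ J j) ∧
    (∀ ψ, ∀ v : HeightOneSpectrum (𝓞 K), e ψ v ≠ 1 → ∀ u : Above F v,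
      ∃ t : F ≃ₐ[K] F, (∀ x : 𝓞 F, t • x - x ∈ u.1.asIdeal) ∧ ψ t ≠ 1) ∧
    (∀ ψ, ∀ v : HeightOneSpectrum (𝓞 K), e ψ v = 1 → ∀ u : Above F v, ∀ t ∈ FrobSet F v u.1,
      (ψ t : ℂ) = value (e ψ) (Submodule.IsPrincipal.generator v.asIdeal)) ∧
    |(discr F : ℝ)| = |(discr K : ℝ)| ^ Module.finrank K F * ∏ᶠ ψ, (conductorNorm (e ψ) : ℝ)

end extension

/-- `x = L(1, E)` for the elliptic curve `E` over the number field `F`: the value at `1` of an analytic
continuation of the `L`-series of `E` (Mathlib's `WeierstrassCurve.LSeries`) from `Re s > 2` to a connected open set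
containing `1`. -/
def CentralValue {F : Type} [Field F] [NumberField F] (E : WeierstrassCurve F) (x : ℂ) : Prop :=
  ∃ (U : Set ℂ) (Φ : ℂ → ℂ), IsOpen U ∧ IsConnected U ∧ {s : ℂ | (2 : ℝ) < s.re} ⊆ U ∧ (1 : ℂ) ∈ U ∧
    AnalyticOnNhd ℂ Φ U ∧ (∀ s : ℂ, (2 : ℝ) < s.re → Φ s = E.LSeries s) ∧ Φ 1 = x

/-- `Ω = Ω(E)` for the elliptic curve `E : y² = x³ + a x + b` over the number field `F` without real places and the
differential `dx/(2y)`: `Ω = |d_F|^(1/2) ∏ Im(Ω₁ conj Ω₂)`, where the product is over the archimedean places `w` of `F`,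
and `Ω₁`, `Ω₂` is a basis of the lattice with `g₂ = -4 e(a)`, `g₃ = -4 e(b)` (that is, `(℘, ℘'/2)` is a parametrization of the
curve `y² = x³ + e(a) x + e(b)`), for a chosen embedding `e` which belongs to the place `w`. -/
def IsOmega (F : Type) [Field F] [NumberField F] (a b : F) (Ω : ℝ) : Prop :=
  ∃ (e : InfinitePlace F → (F →+* ℂ)) (L : InfinitePlace F → PeriodPair),
    (∀ w, InfinitePlace.mk (e w) = w ∧ w.IsComplex ∧ (L w).g₂ = -4 * e w a ∧ (L w).g₃ = -4 * e w b) ∧
    Ω = √|(discr F : ℝ)| * ∏ w, ((L w).ω₁ * (starRingEnd ℂ) (L w).ω₂).im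

/-- `L(1, E) ∈ ℚ Ω(E) θ` for the curve `E : y² = x³ + a x + b` over `F`, for all values of the period `Ω(E)`. -/
def IsRationalTimes (F : Type) [Field F] [NumberField F] (a b : F) (θ : ℝ) : Prop :=
  ∀ (x : ℂ) (Ω : ℝ), CentralValue (curve a b) x → IsOmega F a b Ω → ∃ q : ℚ, x = q * (Ω * θ)

/-- The assertion of the problem for `E : y² = x³ + a x + b` over `F`: `L(1, E) ∈ Ω(E) ℚˣ` (and so `L(1, E) ≠ 0`). -/
def Assertion (F : Type) [Field F] [NumberField F] (a b : F) : Prop :=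
  ∃ (x : ℂ) (Ω : ℝ) (q : ℚ), CentralValue (curve a b) x ∧ IsOmega F a b Ω ∧ q ≠ 0 ∧ x = q * Ω

/-- `M = F(√d)` is a quadratic extension of `F`. -/
def IsSquareRootField (F M : Type) [Field F] [NumberField F] [Field M] [NumberField M] [Algebra F M]
    (d : 𝓞 F) : Prop :=
  Module.finrank F M = 2 ∧ ∃ t : 𝓞 M, t ^ 2 = algebraMap (𝓞 F) (𝓞 M) d ∧ ∀ y : F, algebraMap F M y ≠ (t : M)

/-- The first coefficient `a d²` of the twist `E_d : y² = x³ + a d² x + b d³` over `F`. -/
def ca (F : Type) [Field F] [NumberField F] [Algebra K F] (a : K) (d : 𝓞 F) : F := algebraMap K F a * (d : F) ^ 2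

/-- The second coefficient `b d³` of the twist `E_d : y² = x³ + a d² x + b d³` over `F`. -/
def cb (F : Type) [Field F] [NumberField F] [Algebra K F] (b : K) (d : 𝓞 F) : F := algebraMap K F b * (d : F) ^ 3

/-- The conclusion for the twist `E_d` over `F`: the central value `L(1, E_d/F)` exists and is not
zero, `L(1, E_d/F) / Ω(E_d/F) = q (L(1, E/K) / Ω(E/K))^[F:K]` with `q ∈ ℚˣ`, and the assertion of the problem for `E` over
`K` implies the assertion of the problem for `E_d` over `F`. -/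
structure TwistNonzeroRational (F : Type) [Field F] [NumberField F] [Algebra K F] (a b : K) (d : 𝓞 F) :
    Prop where
  exists_value : ∃ x, CentralValue (curve (ca F a d) (cb F b d)) x
  nonzero : ∀ x, CentralValue (curve (ca F a d) (cb F b d)) x → x ≠ 0
  quotient : ∀ (x₀ x : ℂ) (Ω₀ Ω : ℝ), CentralValue (curve a b) x₀ → IsOmega K a b Ω₀ →
    CentralValue (curve (ca F a d) (cb F b d)) x → IsOmega F (ca F a d) (cb F b d) Ω →
    ∃ q : ℚ, q ≠ 0 ∧ x / Ω = q * (x₀ / Ω₀) ^ Module.finrank K F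
  assertion : Assertion K a b → Assertion F (ca F a d) (cb F b d)

/-- The conclusion for a tuple of characters: for all the class fields `F ⊂ M = F(√d)` and all the curves. -/
def AllTwists [IsPrincipalIdealRing (𝓞 K)] {m : ℕ} (a b : Fin m → 𝓞 K) {r : ℕ}
    (χ : Fin r → Fam K) : Prop :=
  ∀ (F M : Type) [Field F] [NumberField F] [Algebra K F] [Field M] [NumberField M] [Algebra K M] [Algebra F M]
    [IsScalarTower K F M] (d : 𝓞 F), IsClassField F χ → IsClassField M χ → IsSquareRootField F M d →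
    ∀ i, TwistNonzeroRational F (a i : K) (b i : K) d

/-- The set of the `r`-tuples of elements of `H`. -/
def Tuples (H : Subgroup (Fam K)) (r : ℕ) : Set (Fin r → Fam K) := {c | ∀ j, c j ∈ H}

/-- The property `P` holds for a proportion at least `2 ^ (-V)` of the `r`-tuples in `H`: there is a set
`S` of at most `2 ^ V` tuples in `H` such that every tuple in `H` can be multiplied by an element of `S`
so that the product has the property `P`; so the proportion of the tuples with `P` is at least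
`2 ^ (-V)` if `H` is finite, and if `H` is infinite, the number of the tuples with product of the norms of the
conductors at most `X` is at most `2 ^ V` times the number of the tuples with `P` and with product of
the norms of the conductors at most `C X`, `C` independent of `X`. -/
def ManyTuples (V : ℕ) (H : Subgroup (Fam K)) (r : ℕ) (P : (Fin r → Fam K) → Prop) : Prop :=
  (∃ S : Finset (Fin r → Fam K), S.card ≤ 2 ^ V ∧ (S : Set (Fin r → Fam K)) ⊆ Tuples H r ∧
    ∀ c ∈ Tuples H r, ∃ k ∈ S, P (fun j => c j * k j)) ∧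
  ((H : Set (Fam K)).Finite → (Tuples H r).ncard ≤ 2 ^ V * {c | c ∈ Tuples H r ∧ P c}.ncard) ∧
  ∃ C : ℕ, ∀ X : ℕ, {c | c ∈ Tuples H r ∧ ∏ j, conductorNorm (c j) ≤ X}.ncard ≤
    2 ^ V * {c | (c ∈ Tuples H r ∧ P c) ∧ ∏ j, conductorNorm (c j) ≤ C * X}.ncard

end field

section proof

/-- the trivial extension -/
lemma self_ext {K : Type} [Field K] [NumberField K] [IsPrincipalIdealRing (𝓞 K)] (n : 𝓞 K) :
    IsAbelianExtension K n := by
  have h1 : ∀ t : K ≃ₐ[K] K, t = 1 := fun t => AlgEquiv.ext fun x => t.commutes x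
  refine ⟨inferInstance, fun s t => by rw [h1 s, h1 t], fun _ => ⊤, fun _ _ => 1, fun ψ => ?_, fun ψ => ?_,
    fun ψ v hv => ?_, ?_⟩
  · refine ⟨top_ne_bot, rfl, fun x y => (mul_one 1).symm, fun x => ?_, fun x y _ => rfl, fun u _ => rfl,
      fun 𝔡 h𝔡 => absurd h𝔡 not_top_lt⟩
    constructor
    · intro h2
      exact absurd h2 one_ne_zero
    · rintro ⟨v, hv, -⟩
      exact absurd (top_le_iff.1 hv) v.isPrime.ne_top
  · refine ⟨fun v hv => absurd (top_le_iff.1 hv) v.isPrime.ne_top, fun v _ u t _ => ?_⟩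
    rw [h1 t, map_one]
    rfl
  · exact absurd (top_le_iff.1 hv) v.isPrime.ne_top
  · rw [Module.finrank_self, pow_one]
    simp

lemma omega_ne {F : Type} [Field F] [NumberField F] {a b : F} {Ω : ℝ} (h : IsOmega F a b Ω) : Ω ≠ 0 :=
  L7h81.UR.om_ne h

theorem rcd_of {K : Type} [Field K] [NumberField K] [IsPrincipalIdealRing (𝓞 K)] {r : ℕ}
    {χ : Fin r → Fam K} {F : Type} [Field F] [NumberField F] [Algebra K F]
    (h : IsClassField F χ) : ∃ E, L7h81.UR.Rcd F χ E := by
  obtain ⟨e, h1, h2, h3, h4⟩ := h.reciprocity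
  exact ⟨e, h1, fun ψ v hv u hu => h2 ψ v hv ⟨u, hu⟩, fun ψ v hv u hu t ht => h3 ψ v hv ⟨u, hu⟩ t ht, h4⟩

theorem concl_of {K : Type} [Field K] [NumberField K] [IsPrincipalIdealRing (𝓞 K)]
    {a b : 𝓞 K} {F : Type} [Field F] [NumberField F] [Algebra K F] {d : 𝓞 F}
    (h : L7h81.TW.ConclT a b F d) : TwistNonzeroRational F (a : K) (b : K) d := by
  refine ⟨h.ex, h.ne, h.all, ?_⟩
  rintro ⟨x₀, Ω₀, q₀, hx₀, hΩ₀, hq₀, hq⟩
  obtain ⟨Ω, hΩ⟩ := h.per ⟨Ω₀, hΩ₀⟩
  obtain ⟨x, hx⟩ := h.ex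
  obtain ⟨q, hq1, hq2⟩ := h.all x₀ x Ω₀ Ω hx₀ hΩ₀ hx hΩ
  have h1 : (Ω₀ : ℂ) ≠ 0 := by exact_mod_cast L7h81.UR.om_ne hΩ₀
  have h2 : (Ω : ℂ) ≠ 0 := by exact_mod_cast L7h81.UR.om_ne hΩ
  refine ⟨x, Ω, q * q₀ ^ Module.finrank K F, hx, hΩ, mul_ne_zero hq1 (pow_ne_zero _ hq₀), ?_⟩
  have h3 : x₀ / Ω₀ = q₀ := by rw [hq]; field_simp
  rw [h3, div_eq_iff h2] at hq2
  rw [hq2]
  push_cast
  ring

end proof

/-- **Theorem.** Let `K` be an imaginary quadratic field of class number one, `E_i : y² = x³ + a_i x + b_i`,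
`i = 1, …, m`, elliptic curves over `K` with Bianchi newforms `f_i` of levels `(N_i)`.
1. For every `i` there is a constant `τ > 0` such that `L(1, E_i/F) ∈ ℚ Ω(E_i/F) τ^[F:K]` for all abelian extensions
   `F/K` of conductor prime to `N_i`, and for all quadratic extensions `M = F(√d)` of these `F` which are abelian over `K` of conductor
   prime to `N_i`, the twist `E_{i,d}` over `F` has a central value, and `L(1, E_{i,d}/F) ∈ ℚ Ω(E_{i,d}/F) τ^[F:K]`.
2. If the assertion of the problem is true for `E_i/K` then `L(1, E_{i,d}/F) ∈ ℚ Ω(E_{i,d}/F)` for all `F`, `M`, `d` as in 1.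
3. If `L(1, E_i/K) ≠ 0` for all `i`: for all `n`, `r` there is `V` such that for every group `H` of characters of `K` of
   order dividing `2 ^ n` and of conductors which are products of different admissible places, for a proportion at
   least `2 ^ (-V)` of the tuples `χ_1, …, χ_r` in `H` the following holds for all class fields `F ⊂ M = F(√d)` of characters in
   the group generated by `χ_1, …, χ_r` and all `i`: the central value `L(1, E_{i,d}/F)` exists and is not zero,
   `L(1, E_{i,d}/F) / Ω(E_{i,d}/F) = q (L(1, E_i/K) / Ω(E_i/K))^[F:K]` with `q ∈ ℚˣ`, and so the assertion of the problem for `E_i` over `K`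
   implies the assertion of the problem for `E_{i,d}` over `F`.  Every infinite such group `H` has an infinite subgroup
   `H₀` such that this holds for all tuples in `H₀`, of any length. -/
theorem result (K : Type) [Field K] [NumberField K] [IsPrincipalIdealRing (𝓞 K)] (σ : K →+* ℂ)
    (δ : K) (hK : IsFieldData K σ δ) (m : ℕ)
    (a b N : Fin m → 𝓞 K) (hΔ : ∀ i, 4 * a i ^ 3 + 27 * b i ^ 2 ≠ 0)
    (c : Fin m → Ideal (𝓞 K) → ℂ) (hf : ∀ i, IsNewform σ δ (N i) (c i))
    (hE : ∀ i, IsNewformOf (a i) (b i) (N i) (c i)) :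
    (∀ i, ∃ τ : ℝ, 0 < τ ∧
      (∀ (F : Type) [Field F] [NumberField F] [Algebra K F], IsAbelianExtension F (N i) →
        IsRationalTimes F (algebraMap K F (a i : K)) (algebraMap K F (b i : K)) (τ ^ Module.finrank K F)) ∧
      (∀ (F M : Type) [Field F] [NumberField F] [Algebra K F] [Field M] [NumberField M] [Algebra K M]
        [Algebra F M] [IsScalarTower K F M] (d : 𝓞 F), IsAbelianExtension F (N i) →
        IsAbelianExtension M (N i) → IsSquareRootField F M d →
        (∃ x, CentralValue (curve (ca F (a i : K) d) (cb F (b i : K) d)) x) ∧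
        IsRationalTimes F (ca F (a i : K) d) (cb F (b i : K) d) (τ ^ Module.finrank K F))) ∧
    (∀ i, Assertion K (a i : K) (b i : K) →
      ∀ (F M : Type) [Field F] [NumberField F] [Algebra K F] [Field M] [NumberField M] [Algebra K M]
        [Algebra F M] [IsScalarTower K F M] (d : 𝓞 F), IsAbelianExtension F (N i) →
        IsAbelianExtension M (N i) → IsSquareRootField F M d →
        IsRationalTimes F (ca F (a i : K) d) (cb F (b i : K) d) 1) ∧
    ((∀ i, ∃ x, CentralValue (curve (a i : K) (b i : K)) x ∧ x ≠ 0) → ∀ n : ℕ,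
      (∀ r : ℕ, ∃ V : ℕ, ∀ H : Subgroup (Fam K), IsCharGroup 2 a b n H →
        ManyTuples V H r (AllTwists a b)) ∧
      ∀ H : Subgroup (Fam K), IsCharGroup 2 a b n H → (H : Set (Fam K)).Infinite →
        ∃ H₀ : Subgroup (Fam K), H₀ ≤ H ∧ (H₀ : Set (Fam K)).Infinite ∧
          ∀ r : ℕ, ∀ χ ∈ Tuples H₀ r, AllTwists a b χ) := by
  classical
  have h : K4H55.BI.IQ K σ δ := ⟨hK.quadratic, hK.imaginary, inferInstance, hK.different⟩
  have hf' : ∀ i, K4H55.BI.BF σ δ (N i) (c i) := fun i => ⟨(hf i).level, (hf i).zero, (hf i).one,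
    (hf i).bound, (hf i).good, (hf i).bad, (hf i).invariant, (hf i).fricke⟩
  have hω : ∀ i, ∃ ω ∈ AddSubgroup.closure (K4H55.BK.Vals σ δ (N i) (c i)),
      ∀ l ∈ AddSubgroup.closure (K4H55.BK.Vals σ δ (N i) (c i)), ∃ j : ℤ, l = j * ω :=
    fun i => (hf i).cyclic
  have hloc : ∀ i, ∀ v : HeightOneSpectrum (𝓞 K),
      c i v.asIdeal = (W189.NF.aV (L7h15.BK.cv (a i : K) (b i : K)) v : ℂ) ∧
      (W189.NF.eV (L7h15.BK.cv (a i : K) (b i : K)) v : ℂ) =
        if N i ∈ v.asIdeal then 0 else (Ideal.absNorm v.asIdeal : ℂ) := by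
    intro i v
    have h2 := hE i v
    have h3 : curve (a i : K) (b i : K) = L7h15.BK.cv (a i : K) (b i : K) := rfl
    rw [h3, W189.NF.localPolynomial_eq] at h2
    have h4 := congrArg (fun p => Polynomial.coeff p 1) h2
    have h5 := congrArg (fun p => Polynomial.coeff p 2) h2
    simp only [Polynomial.coeff_map, Polynomial.coeff_add, Polynomial.coeff_sub,
      Polynomial.coeff_C_mul, Polynomial.coeff_X_pow, Polynomial.coeff_X, Polynomial.coeff_one] at h4 h5
    norm_num at h4 h5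
    exact ⟨h4.symm, h5⟩
  have hrc : ∀ (F : Type) [Field F] [NumberField F] [Algebra K F]
      (𝔣 : ((F ≃ₐ[K] F) →* ℂˣ) → Ideal (𝓞 K)) (χ : ((F ≃ₐ[K] F) →* ℂˣ) → 𝓞 K → ℂ),
      (∀ ψ, IsCharacter (𝔣 ψ) (χ ψ)) → (∀ ψ, Corresponds F ψ (𝔣 ψ) (χ ψ)) →
      ∀ ψ, L7h82.RL.RC ψ (𝔣 ψ) (χ ψ) := fun F _ _ _ 𝔣 χ hχ hc ψ =>
    ⟨⟨(hχ ψ).conductor, (hχ ψ).one, (hχ ψ).mul, (hχ ψ).zero, (hχ ψ).periodic, (hχ ψ).units, (hχ ψ).primitive⟩,
      fun v hv u hu => (hc ψ).ramified v hv ⟨u, hu⟩,
      fun v hv u hu t ht => (hc ψ).frobenius v hv ⟨u, hu⟩ t ht⟩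
  -- the constant
  have h1 : ∀ i, ∃ τ : ℝ, 0 < τ ∧
      (∀ (F : Type) [Field F] [NumberField F] [Algebra K F], IsAbelianExtension F (N i) →
        IsRationalTimes F (algebraMap K F (a i : K)) (algebraMap K F (b i : K)) (τ ^ Module.finrank K F)) ∧
      (∀ (F M : Type) [Field F] [NumberField F] [Algebra K F] [Field M] [NumberField M] [Algebra K M]
        [Algebra F M] [IsScalarTower K F M] (d : 𝓞 F), IsAbelianExtension F (N i) →
        IsAbelianExtension M (N i) → IsSquareRootField F M d →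
        (∃ x, CentralValue (curve (ca F (a i : K) d) (cb F (b i : K) d)) x) ∧
        IsRationalTimes F (ca F (a i : K) d) (cb F (b i : K) d) (τ ^ Module.finrank K F)) := by
    intro i
    obtain ⟨ω, hω', hω''⟩ := hω i
    obtain ⟨τ, hτ, hf1, hf2⟩ := L7h81.TW.fin_T L7h81.TW.p_LOC L7h81.TW.p_LST L7h81.TW.p_DSQ L7h81.TW.p_OMT L7h81.TW.p_OMX h (hf' i) (hΔ i) (hloc i) hω' hω''
    refine ⟨τ, hτ, fun F _ _ _ hF => ?_, fun F M _ _ _ _ _ _ _ _ d hF hM hQ => ?_⟩
    · have := hF.galois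
      obtain ⟨𝔣, χ, hχ, hc, hn, hd⟩ := hF.reciprocity
      obtain ⟨-, k2⟩ := hf1 F hF.abelian 𝔣 χ (hrc F 𝔣 χ hχ hc) hn hd
      intro x Ω hx hΩ
      obtain ⟨q, hq⟩ := k2 x Ω hx hΩ
      exact ⟨q, by rw [hq]; push_cast; ring⟩
    · have := hF.galois
      have := hM.galois
      obtain ⟨𝔣F, χF, hχF, hcF, hnF, hdF⟩ := hF.reciprocity
      obtain ⟨𝔣, χ, hχ, hc, hn, hd⟩ := hM.reciprocity
      obtain ⟨h2, t, ht, ht'⟩ := hQ
      obtain ⟨k1, k2⟩ := hf2 F M d t 𝔣F χF 𝔣 χ ⟨hM.abelian, h2, ht, ht', hrc F 𝔣F χF hχF hcF,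
        hrc M 𝔣 χ hχ hc, hn, hdF, hd⟩
      refine ⟨k1, fun x Ω hx hΩ => ?_⟩
      obtain ⟨q, hq⟩ := k2 x Ω hx hΩ
      exact ⟨q, by rw [hq]; push_cast; ring⟩
  refine ⟨h1, fun i hA F M _ _ _ _ _ _ _ _ d hF hM hQ => ?_, fun h0 n => ⟨fun r => ?_, fun H hH hinf => ?_⟩⟩
  · obtain ⟨τ, hτ, hf1, hf2⟩ := h1 i
    obtain ⟨x₀, Ω₀, q₀, hx₀, hΩ₀, hq₀, hq⟩ := hA
    obtain ⟨q₁, hq₁⟩ := hf1 K (self_ext (N i)) x₀ Ω₀ hx₀ hΩ₀
    rw [Module.finrank_self, pow_one] at hq₁
    have hΩ1 : (Ω₀ : ℂ) ≠ 0 := by exact_mod_cast omega_ne hΩ₀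
    have hq₁0 : (q₁ : ℂ) ≠ 0 := by
      intro h2
      rw [h2, zero_mul] at hq₁
      rw [hq₁] at hq
      exact mul_ne_zero (by exact_mod_cast hq₀) hΩ1 hq.symm
    have hτq : (τ : ℂ) = ((q₀ / q₁ : ℚ) : ℂ) := by
      push_cast
      rw [eq_div_iff hq₁0]
      apply mul_left_cancel₀ hΩ1
      linear_combination -hq₁ + hq
    intro x Ω hx hΩ
    obtain ⟨q, hq2⟩ := (hf2 F M d hF hM hQ).2 x Ω hx hΩ
    refine ⟨q * (q₀ / q₁) ^ Module.finrank K F, ?_⟩
    rw [hq2]
    push_cast at hτq ⊢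
    rw [hτq]
    ring
  · obtain ⟨V, hV⟩ := L7h81.TW.uniT L7h81.TW.p_LOC L7h81.TW.p_LST L7h81.TW.p_DSQ L7h81.TW.p_OMT L7h81.TW.p_OMX h a b N c hΔ hf' hloc hω h0 Nat.prime_two n r
    refine ⟨V, fun H hH => ?_⟩
    obtain ⟨S, h2, h3, h4⟩ := hV H ⟨hH.pow, hH.finite, hH.units, fun e he v hv i => hH.admissible e he v hv i⟩
    have h5 : ∀ e : Fin r → Fam K, (∀ j, e j ∈ H) → ∃ x ∈ S, AllTwists a b (fun j => e j * x j) := by
      intro e he
      obtain ⟨x, hx, h6⟩ := h4 e he
      refine ⟨x, hx, fun F M _ _ _ _ _ _ _ _ d hF hM hQ i => ?_⟩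
      have := hF.galois
      have := hM.galois
      obtain ⟨k2, t, ht, ht'⟩ := hQ
      exact concl_of (h6 F M d t ⟨k2, ht, ht'⟩ hM.abelian (rcd_of hF) (rcd_of hM) i)
    exact ⟨⟨S, h2, fun x hx => h3 x hx, h5⟩, L7h81.UB.many_tuples hH.finite S h2 h3 h5⟩
  · obtain ⟨H₀, h2, h3, h4⟩ := L7h81.TW.infT L7h81.TW.p_LOC L7h81.TW.p_LST L7h81.TW.p_DSQ L7h81.TW.p_OMT L7h81.TW.p_OMX h a b N c hΔ hf' hloc hω h0 Nat.prime_two n H
      ⟨hH.pow, hH.finite, hH.units, fun e he v hv i => hH.admissible e he v hv i⟩ hinf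
    refine ⟨H₀, h2, h3, fun r χ hχ F M _ _ _ _ _ _ _ _ d hF hM hQ i => ?_⟩
    have := hF.galois
    have := hM.galois
    obtain ⟨k2, t, ht, ht'⟩ := hQ
    exact concl_of (h4 r χ hχ F M d t ⟨k2, ht, ht'⟩ hM.abelian (rcd_of hF) (rcd_of hM) i)

end Pool.Agent.Results.MP_90f827_nt.QuadraticTwists
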