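import Pool.Agent.L7h15.SQ.Fin

/-!
# The quotients `L(1, E/F) / Ω(E/F)` for the abelian extensions `F` of an imaginary quadratic field `K`, up to rational
# squares

`K` is an imaginary quadratic field of class number one and `E : y² = x³ + a x + b` an elliptic curve over `K` (not
necessarily defined over `ℚ`, and without complex multiplication in general), which belongs to a Bianchi newform `f` of
weight two and level `(n)`.  The problem asks for `r(F) := L(1, E/F) / Ω(E/F) ∈ ℚ` for every number field `F` with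
`L(1, E/F) ≠ 0`.

Theorem.  Let `K ⊂ M ⊂ F` be number fields, `M` and `F` abelian over `K` of conductor prime to `n`, such that every
`z ∈ F` with `z² ∈ K` lies in `M`.  Then `[F:K] - [M:K]` is even, and
`r(F) = ρ² r(M) r(K)^([F:K] - [M:K])` with a rational number `ρ`.

The condition on `M` is satisfied if `[F:M]` is odd.  In particular, if `[F:K]` is odd, then `r(F) = ρ² r(K)^[F:K]` with
`ρ ∈ ℚ` (there are infinitely many such `F`, of unbounded degree, with any finite abelian group of odd order as the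
Galois group).  So, if the assertion of the problem is true for `E/K`, then it is true for `E/F`, and `r(F)` is `r(K)` times
a rational square; if it is true for `E/F`, and `L(1, E/F) ≠ 0`, then `r(K)^[F:K]` is rational.  For a cyclic extension
`F/K` of even degree, `M` can be any intermediate field of even degree over `K`, for example the quadratic one: up to
rational squares, and a power of `r(K)` with an even exponent, `r(F)` depends only on the quadratic subextensions of
`F/K`.  There is no unknown constant in these formulas.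

The proof.  The central value of the twist `f ⊗ χ` by a primitive character `χ` of conductor `(m)` is, up to a constant,
the sum `s(χ) = ∑ χ(x) Φ(x/m)` of the values at cusps of the primitive `Φ` of the harmonic differential of `f`, divided by a
Gauss sum.  For the characters `χ` of `Gal(F/K)`, the Fricke involution gives `s(χ) = w ν(χ) conj s(χ)` with a character `ν` of the
group of the `χ`.  If `r(M) ≠ 0`, it follows that `w = 1` and that `ν` is trivial on the characters of order two, so that `ν` is the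
square of a character `μ` and `t(χ) = s(χ) conj μ(χ)` is real, with `t(χ⁻¹) = t(χ)`; the product of the `t(χ)` over one character
of each pair `χ, χ⁻¹` which does not come from `M` is a rational integer `T` (times a power of the generator of the group of the
values at cusps), and the product of the `s(χ)` is `T²`.  The product of the Gauss sums of `χ` and `χ⁻¹` is the norm of the
conductor; the formula for conductors and discriminants and the periods at all places of `F` (a lattice is determined by `g₂`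
and `g₃`) give `Ω(E/F)`.

The parts of the proof were written with helper23, helper50, helper53, helper60, helper65 and helper82.
-/

set_option autoImplicit false

open NumberField IsDedekindDomain Matrix WeierstrassCurve Filter Topology

namespace Pool.Agent.Results.MP_90f827_nt.RationalSquares

/-- `K` is an imaginary quadratic field, `σ` is one of its two embeddings in `ℂ`, and `δ` generates the
different of `K`: an `x ∈ K` is in `𝓞` if and only if `Tr(x y / δ) ∈ ℤ` for all `y ∈ 𝓞`. -/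
structure IsFieldData (K : Type) [Field K] [NumberField K] (σ : K →+* ℂ) (δ : K) : Prop where
  quadratic : Module.finrank ℚ K = 2
  imaginary : ∃ x, (starRingEnd ℂ) (σ x) ≠ σ x
  different : ∀ x : K, (∃ a : 𝓞 K, (a : K) = x) ↔
    ∀ y : 𝓞 K, ∃ m : ℤ, Algebra.trace ℚ K (x * y / δ) = m

/-- `h(y) = ∫_0^∞ exp(-1/v - y v) dv = 2 y^(-1/2) K₁(2 √y)`, with the Bessel function `K₁`. -/
noncomputable def bessel (y : ℝ) : ℝ := ∫ v in Set.Ioi (0 : ℝ), Real.exp (-(1 / v) - y * v)

/-- The additive character `e(z) = exp(2πi (z/δ + conj (z/δ)))` of `ℂ`, trivial on `𝓞`. -/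
noncomputable def addChar (δ z : ℂ) : ℂ :=
  Complex.exp (2 * Real.pi * Complex.I * (z / δ + (starRingEnd ℂ) (z / δ)))

/-- The denominator `|c z + d|² + |c|² t²` of the action of the matrix `(a, b; c, d)` on the hyperbolic
space `{(z, t) : z ∈ ℂ, t > 0}`. -/
noncomputable def den (c d z : ℂ) (t : ℝ) : ℝ := ‖c * z + d‖ ^ 2 + ‖c‖ ^ 2 * t ^ 2

/-- The first coordinate `((a z + b) conj (c z + d) + a conj(c) t²) / (|c z + d|² + |c|² t²)` of the image
of `(z, t)` under the matrix `(a, b; c, d)`. -/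
noncomputable def actZ (a b c d z : ℂ) (t : ℝ) : ℂ :=
  ((a * z + b) * (starRingEnd ℂ) (c * z + d) + a * (starRingEnd ℂ) c * (t : ℂ) ^ 2) /
    (den c d z t : ℂ)

/-- The second coordinate, for a matrix of determinant one; in general it is `|ad - bc|` times this. -/
noncomputable def actT (c d z : ℂ) (t : ℝ) : ℝ := t / den c d z t

section field
variable {K : Type} [Field K] [NumberField K]

/-- The function `Φ(z, t) = ∑_{x ∈ 𝓞} c((x)) t² h(N(x) (2πt/|δ|)²) e(x z)
  = (|δ|/π) ∑_{x ≠ 0} (c((x))/|x|) t K₁(4π|x|t/|δ|) e(x z)` on the hyperbolic space, with the coefficients `c`.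
Up to a constant factor it is the primitive, zero at the cusp `∞`, of the harmonic differential of the
form of weight two with the Fourier coefficients `c`: its derivative by `t` is
`-4 ∑_{x ≠ 0} c((x)) t K₀(4π|x|t/|δ|) e(x z)`. -/
noncomputable def primitive (σ : K →+* ℂ) (δ : K) (c : Ideal (𝓞 K) → ℂ) (z : ℂ) (t : ℝ) : ℂ :=
  ∑' x : 𝓞 K, c (Ideal.span {x}) * ((t ^ 2 * bessel (Ideal.absNorm (Ideal.span {x}) *
    (2 * Real.pi * t / ‖σ δ‖) ^ 2) : ℝ) : ℂ) * addChar (σ δ) (σ x * z)

/-- The group `Λ` generated by the values of the primitive `Φ` at the cusps `x/m`, `m ≠ 0` prime to the level (that is,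
by the limits of `Φ(x/m, t)` for `t → 0`). -/
def Lam (σ : K →+* ℂ) (δ : K) (n : 𝓞 K) (c : Ideal (𝓞 K) → ℂ) : AddSubgroup ℂ :=
  AddSubgroup.closure {z | ∃ x m : 𝓞 K, m ≠ 0 ∧ IsCoprime m n ∧
    Tendsto (fun t => primitive σ δ c (σ x / σ m) t) (𝓝[>] 0) (𝓝 z)}

/-- The numbers `c(I)` are the Hecke eigenvalues of a Bianchi newform `f` of weight two, level `(n)` and
trivial character over `K`, with rational eigenvalues: they satisfy `c(𝓞) = 1`, the (trivial) bound `c(I) = O(N(I))`
and the Hecke relations `c(v I) = c(v) c(I)` for `v ∤ I`, `c(v² I) = c(v) c(v I) - N(v) c(I)` for the primes `v ∤ n`, and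
`c(v I) = c(v) c(I)` for `v ∣ n`; the differential `dΦ` of the function `Φ` with the coefficients `c` is
invariant under `Γ₀(n)`, that is, `Φ(γ P) - Φ(P)` is a constant for every `γ ∈ Γ₀(n)`; `dΦ` is an
eigenform, with the eigenvalue `±1`, of the Fricke involution `W = (0, -1; n, 0)`; and the group `Λ` of the values of `Φ` at
cusps is cyclic (this is so for rational eigenvalues, by multiplicity one and the theorem of Manin, Drinfeld and
Kurčanov: the quotient of `H₁(Γ₀(n), cusps; ℤ)` which belongs to `f` has rank one). -/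
structure IsNewform (σ : K →+* ℂ) (δ : K) (n : 𝓞 K) (c : Ideal (𝓞 K) → ℂ) : Prop where
  level : n ≠ 0
  zero : c ⊥ = 0
  one : c ⊤ = 1
  bound : ∃ C : ℝ, ∀ I, ‖c I‖ ≤ C * Ideal.absNorm I
  good : ∀ v : HeightOneSpectrum (𝓞 K), n ∉ v.asIdeal → ∀ I,
    (¬ v.asIdeal ∣ I → c (v.asIdeal * I) = c v.asIdeal * c I) ∧
    c (v.asIdeal * (v.asIdeal * I)) = c v.asIdeal * c (v.asIdeal * I) -
      Ideal.absNorm v.asIdeal * c I
  bad : ∀ v : HeightOneSpectrum (𝓞 K), n ∈ v.asIdeal → ∀ I,
    c (v.asIdeal * I) = c v.asIdeal * c I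
  invariant : ∃ κ : SpecialLinearGroup (Fin 2) (𝓞 K) → ℂ,
    ∀ γ : SpecialLinearGroup (Fin 2) (𝓞 K), n ∣ γ.1 1 0 → ∀ (z : ℂ) (t : ℝ), 0 < t →
      primitive σ δ c (actZ (σ (γ.1 0 0)) (σ (γ.1 0 1)) (σ (γ.1 1 0)) (σ (γ.1 1 1)) z t)
        (actT (σ (γ.1 1 0)) (σ (γ.1 1 1)) z t) = primitive σ δ c z t + κ γ
  fricke : ∃ w κ : ℂ, w * w = 1 ∧ ∀ (z : ℂ) (t : ℝ), 0 < t →
    primitive σ δ c (actZ 0 (-1) (σ n) 0 z t) (‖σ n‖ * actT (σ n) 0 z t) =
      -w * primitive σ δ c z t + κ
  cyclic : ∃ ω ∈ Lam σ δ n c, ∀ l ∈ Lam σ δ n c, ∃ j : ℤ, l = j * ω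

/-- The curve `E : y² = x³ + a x + b` over `K`. -/
def curve (a b : K) : WeierstrassCurve K := ⟨0, 0, 0, a, b⟩

open Classical in
/-- `f` is the newform of `E : y² = x³ + a x + b`: the Euler factors of `f` and of `E` agree at all the places `v` of
`K`, that is, the local polynomial of `E` at `v` (Mathlib's `WeierstrassCurve.localPolynomial`) is
`1 - c(v) X + N(v) X²`, without the last term if `v ∣ n`. -/
def IsNewformOf (a b n : 𝓞 K) (c : Ideal (𝓞 K) → ℂ) : Prop :=
  ∀ v : HeightOneSpectrum (𝓞 K),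
    (((curve (a : K) (b : K)).baseChange (v.adicCompletion K)).localPolynomial
      (v.adicCompletionIntegers K)).map (Int.castRingHom ℂ) =
      1 - Polynomial.C (c v.asIdeal) * Polynomial.X +
        Polynomial.C (if n ∈ v.asIdeal then 0 else (Ideal.absNorm v.asIdeal : ℂ)) *
          Polynomial.X ^ 2

/-- The curve `E : y² = x³ + a x + b` over the extension `F` of `K`. -/
def curveOver (F : Type) [Field F] [Algebra K F] (a b : K) : WeierstrassCurve F :=
  (curve a b).map (algebraMap K F)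

/-- `χ` is a character of `K` of conductor `𝔣`, as a function on `𝓞` (`K` has class number one): a primitive character
modulo `𝔣`, trivial on the units, and zero on the `x` which are not prime to `𝔣`. -/
structure IsCharacter (𝔣 : Ideal (𝓞 K)) (χ : 𝓞 K → ℂ) : Prop where
  conductor : 𝔣 ≠ ⊥
  one : χ 1 = 1
  mul : ∀ x y, χ (x * y) = χ x * χ y
  zero : ∀ x, χ x = 0 ↔ ∃ v : HeightOneSpectrum (𝓞 K), 𝔣 ≤ v.asIdeal ∧ x ∈ v.asIdeal
  periodic : ∀ x y, x - y ∈ 𝔣 → χ x = χ y
  units : ∀ u, IsUnit u → χ u = 1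
  primitive : ∀ 𝔡 : Ideal (𝓞 K), 𝔣 < 𝔡 → ∃ x, x - 1 ∈ 𝔡 ∧ χ x ≠ 0 ∧ χ x ≠ 1

section extension

variable (F : Type) [Field F] [NumberField F] [Algebra K F]

/-- The places `u` of `F` above `v`. -/
def Above (v : HeightOneSpectrum (𝓞 K)) : Type :=
  {u : HeightOneSpectrum (𝓞 F) // u.asIdeal.comap (algebraMap (𝓞 K) (𝓞 F)) = v.asIdeal}

/-- The Frobenius automorphisms at the place `u` of `F` above `v`: the `t ∈ Gal(F/K)` with `t x = x ^ N(v)`
modulo `u` for all the integers `x` of `F`.  They are a coset of the inertia group of `u`. -/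
def FrobSet (v : HeightOneSpectrum (𝓞 K)) (u : HeightOneSpectrum (𝓞 F)) : Set (F ≃ₐ[K] F) :=
  {t | ∀ x : 𝓞 F, t • x - x ^ Ideal.absNorm v.asIdeal ∈ u.asIdeal}

/-- The law of reciprocity for the character `ψ` of `Gal(F/K)` and the character `χ` of `K` of conductor `𝔣`: the places
`v ∣ 𝔣` are ramified for `ψ` (`ψ` is not trivial on the inertia groups), and `ψ(t) = χ(v)` for all places `v ∤ 𝔣` of `K` and all
Frobenius automorphisms `t ∈ Gal(F/K)` at places of `F` above `v`. -/
structure Corresponds [IsPrincipalIdealRing (𝓞 K)] (ψ : (F ≃ₐ[K] F) →* ℂˣ) (𝔣 : Ideal (𝓞 K))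
    (χ : 𝓞 K → ℂ) : Prop where
  ramified : ∀ v : HeightOneSpectrum (𝓞 K), 𝔣 ≤ v.asIdeal → ∀ u : Above F v,
    ∃ t : F ≃ₐ[K] F, (∀ x : 𝓞 F, t • x - x ∈ u.1.asIdeal) ∧ ψ t ≠ 1
  frobenius : ∀ v : HeightOneSpectrum (𝓞 K), ¬ 𝔣 ≤ v.asIdeal → ∀ u : Above F v, ∀ t ∈ FrobSet F v u.1,
    (ψ t : ℂ) = χ (Submodule.IsPrincipal.generator v.asIdeal)

/-- `F/K` is a finite abelian extension of conductor prime to `n`.  To each character `ψ` of `Gal(F/K)` corresponds
(by the law of reciprocity of class field theory) a character `χ ψ` of `K`, its conductor `𝔣 ψ` is prime to `n`, and the formula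
for conductors and discriminants `|d_F| = |d_K|^[F:K] ∏ N(𝔣 ψ)` holds.  (The law of reciprocity and the formula are true for
every abelian extension; they are not in Mathlib.) -/
structure IsAbelianExtension [IsPrincipalIdealRing (𝓞 K)] (n : 𝓞 K) : Prop where
  galois : IsGalois K F
  abelian : ∀ s t : F ≃ₐ[K] F, s * t = t * s
  reciprocity : ∃ (𝔣 : ((F ≃ₐ[K] F) →* ℂˣ) → Ideal (𝓞 K)) (χ : ((F ≃ₐ[K] F) →* ℂˣ) → 𝓞 K → ℂ),
    (∀ ψ, IsCharacter (𝔣 ψ) (χ ψ)) ∧ (∀ ψ, Corresponds F ψ (𝔣 ψ) (χ ψ)) ∧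
    (∀ ψ, ∀ v : HeightOneSpectrum (𝓞 K), 𝔣 ψ ≤ v.asIdeal → n ∉ v.asIdeal) ∧
    |(discr F : ℝ)| = |(discr K : ℝ)| ^ Module.finrank K F * ∏ᶠ ψ, (Ideal.absNorm (𝔣 ψ) : ℝ)

end extension

/-- `α^f + β^f` for the numbers `α`, `β` with `α + β = t`, `α β = q`. -/
noncomputable def powerSum (t q : ℂ) : ℕ → ℂ
  | 0 => 2
  | 1 => t
  | (f + 2) => t * powerSum t q (f + 1) - q * powerSum t q f

open Classical in
/-- The Euler factor of `E` over an extension `F` of `K` (of conductor prime to the level) at a place `u` of `F` above the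
place `v` of `K`, where `Q = N(u) = N(v)^f`: it is `(1 - c(v)^f Q^(-s))⁻¹` if `v ∣ n`, and `(1 - (α^f + β^f) Q^(-s) + Q^(1-2s))⁻¹`
with `α + β = c(v)`, `α β = N(v)` (the trace of the `f`-th power of the Frobenius of the reduction of `E` at `v`) if `v ∤ n`. -/
noncomputable def eulerFactor (n : 𝓞 K) (c : Ideal (𝓞 K) → ℂ) (v : HeightOneSpectrum (𝓞 K)) (Q : ℕ)
    (s : ℂ) : ℂ :=
  if n ∈ v.asIdeal then (1 - c v.asIdeal ^ (Nat.log (Ideal.absNorm v.asIdeal) Q) * (Q : ℂ) ^ (-s))⁻¹
  else (1 - powerSum (c v.asIdeal) (Ideal.absNorm v.asIdeal) (Nat.log (Ideal.absNorm v.asIdeal) Q) *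
    (Q : ℂ) ^ (-s) + (Q : ℂ) ^ (1 - 2 * s))⁻¹

/-- The `L`-series `L(s, E/F)` for `Re s > 2`, as the product of the Euler factors at the places `u` of `F`, collected over
the places `v` of `K`. -/
noncomputable def LSeriesOver (n : 𝓞 K) (c : Ideal (𝓞 K) → ℂ) (F : Type) [Field F] [NumberField F] [Algebra K F]
    (s : ℂ) : ℂ :=
  ∏' v : HeightOneSpectrum (𝓞 K), ∏ᶠ u : Above F v, eulerFactor n c v (Ideal.absNorm u.1.asIdeal) s

/-- The places of `K` above `2 (4 a³ + 27 b²)` split completely in `F`. -/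
def SplitsAtBadPlaces (F : Type) [Field F] [Algebra K F] (a b : 𝓞 K) : Prop :=
  ∀ v : HeightOneSpectrum (𝓞 K), 2 * (4 * a ^ 3 + 27 * b ^ 2) ∈ v.asIdeal →
    Nonempty (F →ₐ[K] v.adicCompletion K)

/-- `x` is the central value of the `L`-series `f`, given for `Re s > 2`: the value at `1` of an analytic continuation of `f` to a
connected open set which contains `1`. -/
def CentralValue (f : ℂ → ℂ) (x : ℂ) : Prop :=
  ∃ (U : Set ℂ) (Φ : ℂ → ℂ), IsOpen U ∧ IsConnected U ∧ {s : ℂ | (2 : ℝ) < s.re} ⊆ U ∧ (1 : ℂ) ∈ U ∧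
    AnalyticOnNhd ℂ Φ U ∧ (∀ s : ℂ, (2 : ℝ) < s.re → Φ s = f s) ∧ Φ 1 = x

/-- `Ω = Ω(E)` for the elliptic curve `E : y² = x³ + a x + b` over the number field `F` without real places and the
differential `dx/(2y)`: `Ω = |d_F|^(1/2) ∏ |Im(Ω₁ conj Ω₂)|`, where the product is over the archimedean places `w` of `F`,
and `Ω₁`, `Ω₂` is a basis of the lattice with `g₂ = -4 e(a)`, `g₃ = -4 e(b)` (that is, `(℘, ℘'/2)` is a parametrization of the
curve `y² = x³ + e(a) x + e(b)`), for a chosen embedding `e` which belongs to the place `w`. -/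
def IsOmega (F : Type) [Field F] [NumberField F] (a b : F) (Ω : ℝ) : Prop :=
  ∃ (e : InfinitePlace F → (F →+* ℂ)) (L : InfinitePlace F → PeriodPair),
    (∀ w, InfinitePlace.mk (e w) = w ∧ w.IsComplex ∧ (L w).g₂ = -4 * e w a ∧ (L w).g₃ = -4 * e w b) ∧
    Ω = √|(discr F : ℝ)| * ∏ w, |((L w).ω₁ * (starRingEnd ℂ) (L w).ω₂).im|

/-- `r = L(1, E/F) / Ω(E/F)` for the curve `E : y² = x³ + a x + b`. -/
def IsQuotient (n : 𝓞 K) (c : Ideal (𝓞 K) → ℂ) (a b : K) (F : Type) [Field F] [NumberField F] [Algebra K F]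
    (r : ℂ) : Prop :=
  ∃ (x : ℂ) (Ω : ℝ), CentralValue (LSeriesOver n c F) x ∧
    IsOmega F (algebraMap K F a) (algebraMap K F b) Ω ∧ r = x / Ω

end field

/-- Every `z ∈ F` with `z² ∈ K` lies in `M`, for an extension `F` of `M`. -/
def ContainsRoots (K M F : Type) [Field K] [Field M] [Field F] [Algebra K F] [Algebra M F] : Prop :=
  ∀ z : F, (∃ y : K, z ^ 2 = algebraMap K F y) → ∃ y : M, algebraMap M F y = z

section proof

/-- the trivial extension -/
lemma self_ext {K : Type} [Field K] [NumberField K] [IsPrincipalIdealRing (𝓞 K)] (n : 𝓞 K) :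
    IsAbelianExtension K n := by
  have h1 : ∀ t : K ≃ₐ[K] K, t = 1 := fun t => AlgEquiv.ext fun x => t.commutes x
  refine ⟨inferInstance, fun s t => by rw [h1 s, h1 t], fun _ => ⊤, fun _ _ => 1, fun ψ => ?_, fun ψ => ?_,
    fun ψ v hv => ?_, ?_⟩
  · refine ⟨top_ne_bot, rfl, fun x y => (mul_one 1).symm, fun x => ?_, fun x y _ => rfl, fun u _ => rfl,
      fun 𝔡 h𝔡 => absurd h𝔡 not_top_lt⟩
    constructor
    · intro h2
      exact absurd h2 one_ne_zero
    · rintro ⟨v, hv, -⟩
      exact absurd (top_le_iff.1 hv) v.isPrime.ne_top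
  · refine ⟨fun v hv => absurd (top_le_iff.1 hv) v.isPrime.ne_top, fun v _ u t _ => ?_⟩
    rw [h1 t, map_one]
    rfl
  · exact absurd (top_le_iff.1 hv) v.isPrime.ne_top
  · rw [Module.finrank_self, pow_one]
    simp

lemma powerSum_eq (t q : ℂ) : ∀ f : ℕ, powerSum t q f = K4H55.CX.luc t q f
  | 0 => rfl
  | 1 => rfl
  | (f + 2) => by
    show t * powerSum t q (f + 1) - q * powerSum t q f =
      t * K4H55.CX.luc t q (f + 1) - q * K4H55.CX.luc t q f
    rw [powerSum_eq t q (f + 1), powerSum_eq t q f]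

section

variable {K : Type} [Field K] [NumberField K]

lemma eulerFactor_eq (n : 𝓞 K) (c : Ideal (𝓞 K) → ℂ) (v : HeightOneSpectrum (𝓞 K)) (Q : ℕ) (s : ℂ) :
    eulerFactor n c v Q s = K4H55.CX.facF n c v Q s := by
  unfold eulerFactor K4H55.CX.facF
  rw [powerSum_eq]

lemma LSeriesOver_eq (n : 𝓞 K) (c : Ideal (𝓞 K) → ℂ) (F : Type) [Field F] [NumberField F] [Algebra K F] :
    LSeriesOver n c F = L7h15.SQ.LF n c F := by
  funext s
  unfold LSeriesOver L7h15.SQ.LF
  simp only [eulerFactor_eq]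
  rfl

end

end proof

/-- **Theorem.** Let `K` be an imaginary quadratic field of class number one, `E : y² = x³ + a x + b` an elliptic
curve over `K` with the Bianchi newform `f` of level `(n)`, and `r(F) = L(1, E/F) / Ω(E/F)`.

1. For every finite abelian extension `F/K` of conductor prime to `n`, the Euler product `L(s, E/F)` converges for `Re s > 2`
   and has a central value; it is Mathlib's `L`-series of `E/F` if the places above `2 (4 a³ + 27 b²)` split completely in `F`
   (for example, if `F = K`).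
2. Let `K ⊂ M ⊂ F` with `M` and `F` abelian over `K` of conductor prime to `n`, such that every `z ∈ F` with `z² ∈ K` lies in `M`
   (for example, with `[F:M]` odd). Then `[F:K] - [M:K]` is even, and `r(F) = ρ² r(M) r(K)^([F:K] - [M:K])` with `ρ ∈ ℚ`.
3. If `F/K` is abelian of conductor prime to `n` and `[F:K]` is odd, then `r(F) = ρ² r(K)^[F:K]` with `ρ ∈ ℚ`. -/
theorem result (K : Type) [Field K] [NumberField K] [IsPrincipalIdealRing (𝓞 K)] (σ : K →+* ℂ)
    (δ : K) (hK : IsFieldData K σ δ) (a b n : 𝓞 K) (hΔ : 4 * a ^ 3 + 27 * b ^ 2 ≠ 0)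
    (c : Ideal (𝓞 K) → ℂ) (hf : IsNewform σ δ n c) (hE : IsNewformOf a b n c) :
    (∀ (F : Type) [Field F] [NumberField F] [Algebra K F], IsAbelianExtension F n →
      (∀ s : ℂ, 2 < s.re → Multipliable fun v : HeightOneSpectrum (𝓞 K) =>
        ∏ᶠ u : Above F v, eulerFactor n c v (Ideal.absNorm u.1.asIdeal) s) ∧
      (∃ x, CentralValue (LSeriesOver n c F) x) ∧
      (SplitsAtBadPlaces F a b → ∀ s : ℂ, 2 < s.re →
        LSeriesOver n c F s = (curveOver F (a : K) (b : K)).LSeries s)) ∧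
    (IsAbelianExtension K n ∧ SplitsAtBadPlaces K a b) ∧
    (∀ (M F : Type) [Field M] [NumberField M] [Algebra K M] [Field F] [NumberField F] [Algebra K F]
      [Algebra M F] [IsScalarTower K M F], IsAbelianExtension M n → IsAbelianExtension F n →
      (ContainsRoots K M F ∨ Odd (Module.finrank M F)) →
      Even (Module.finrank K F - Module.finrank K M) ∧
      ∃ ρ : ℚ, ∀ rF rM rK : ℂ, IsQuotient n c (a : K) (b : K) F rF → IsQuotient n c (a : K) (b : K) M rM →
        IsQuotient n c (a : K) (b : K) K rK →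
        rF = (ρ : ℂ) ^ 2 * rM * rK ^ (Module.finrank K F - Module.finrank K M)) ∧
    (∀ (F : Type) [Field F] [NumberField F] [Algebra K F], IsAbelianExtension F n →
      Odd (Module.finrank K F) →
      ∃ ρ : ℚ, ∀ rF rK : ℂ, IsQuotient n c (a : K) (b : K) F rF → IsQuotient n c (a : K) (b : K) K rK →
        rF = (ρ : ℂ) ^ 2 * rK ^ Module.finrank K F) := by
  classical
  have h : K4H55.BI.IQ K σ δ := ⟨hK.quadratic, hK.imaginary, inferInstance, hK.different⟩
  have hf' : K4H55.BI.BF σ δ n c := ⟨hf.level, hf.zero, hf.one, hf.bound, hf.good, hf.bad,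
    hf.invariant, hf.fricke⟩
  obtain ⟨ω, -, hω'⟩ := hf.cyclic
  have hω : ∀ l ∈ K4H55.BK.Vals σ δ n c, ∃ j : ℤ, l = j * ω := fun l hl => hω' l (AddSubgroup.subset_closure hl)
  have hloc : ∀ v : HeightOneSpectrum (𝓞 K),
      c v.asIdeal = (W189.NF.aV (L7h15.BK.cv (a : K) (b : K)) v : ℂ) ∧
      (W189.NF.eV (L7h15.BK.cv (a : K) (b : K)) v : ℂ) =
        if n ∈ v.asIdeal then 0 else (Ideal.absNorm v.asIdeal : ℂ) := by
    intro v
    have h2 := hE v
    have h3 : curve (a : K) (b : K) = L7h15.BK.cv (a : K) (b : K) := rfl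
    rw [h3, W189.NF.localPolynomial_eq] at h2
    have h4 := congrArg (fun p => Polynomial.coeff p 1) h2
    have h5 := congrArg (fun p => Polynomial.coeff p 2) h2
    simp only [Polynomial.coeff_map, Polynomial.coeff_add, Polynomial.coeff_sub,
      Polynomial.coeff_C_mul, Polynomial.coeff_X_pow, Polynomial.coeff_X, Polynomial.coeff_one] at h4 h5
    norm_num at h4 h5
    exact ⟨h4.symm, h5⟩
  have hRC : ∀ (F : Type) [Field F] [NumberField F] [Algebra K F] (𝔣 : ((F ≃ₐ[K] F) →* ℂˣ) → Ideal (𝓞 K))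
      (χ : ((F ≃ₐ[K] F) →* ℂˣ) → 𝓞 K → ℂ), (∀ ψ, IsCharacter (𝔣 ψ) (χ ψ)) →
      (∀ ψ, Corresponds F ψ (𝔣 ψ) (χ ψ)) → ∀ ψ, L7h82.RL.RC ψ (𝔣 ψ) (χ ψ) := fun F _ _ _ 𝔣 χ hχ hc ψ =>
    ⟨⟨(hχ ψ).conductor, (hχ ψ).one, (hχ ψ).mul, (hχ ψ).zero, (hχ ψ).periodic, (hχ ψ).units, (hχ ψ).primitive⟩,
      fun v hv u hu => (hc ψ).ramified v hv ⟨u, hu⟩,
      fun v hv u hu t ht => (hc ψ).frobenius v hv ⟨u, hu⟩ t ht⟩
  have hsplit : SplitsAtBadPlaces K a b := fun v _ => ⟨Algebra.ofId K _⟩
  have main : ∀ (M F : Type) [Field M] [NumberField M] [Algebra K M] [Field F] [NumberField F] [Algebra K F]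
      [Algebra M F] [IsScalarTower K M F], IsAbelianExtension M n → IsAbelianExtension F n →
      (ContainsRoots K M F ∨ Odd (Module.finrank M F)) →
      Even (Module.finrank K F - Module.finrank K M) ∧
      ∃ ρ : ℚ, ∀ rF rM rK : ℂ, IsQuotient n c (a : K) (b : K) F rF → IsQuotient n c (a : K) (b : K) M rM →
        IsQuotient n c (a : K) (b : K) K rK →
        rF = (ρ : ℂ) ^ 2 * rM * rK ^ (Module.finrank K F - Module.finrank K M) := by
    intro M F _ _ _ _ _ _ _ _ hM hF hq
    have := hF.galois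
    have := hM.galois
    have hq' : ∀ z : F, (∃ y : K, z ^ 2 = algebraMap K F y) → ∃ y : M, algebraMap M F y = z := by
      rcases hq with hq | hq
      · exact hq
      · exact fun z hz => L7h15.SQ.odd_sq hq z hz
    obtain ⟨𝔣, χ, hχ, hc, hn, hd⟩ := hF.reciprocity
    obtain ⟨𝔣M, χM, hχM, hcM, -, hdM⟩ := hM.reciprocity
    obtain ⟨k1, -, -, -, ρ, hρ⟩ := L7h15.SQ.tower_om (M := M) (F := F) h hf' hω (a : K) (b : K) hM.abelian hF.abelian
      (hRC F 𝔣 χ hχ hc) (hRC M 𝔣M χM hχM hcM) hn hd hdM hq'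
    refine ⟨k1, ρ, ?_⟩
    rintro rF rM rK ⟨xF, ΩF, l1, l2, rfl⟩ ⟨xM, ΩM, l3, l4, rfl⟩ ⟨xK, ΩK, l5, l6, rfl⟩
    rw [LSeriesOver_eq] at l1 l3 l5
    exact hρ xF xM xK ΩF ΩM ΩK l1 l3 l5 l2 l4 l6
  refine ⟨?_, ⟨self_ext n, hsplit⟩, main, ?_⟩
  · intro F _ _ _ hF
    have := hF.galois
    obtain ⟨𝔣, χ, hχ, hc, hn, hd⟩ := hF.reciprocity
    have hR := hRC F 𝔣 χ hχ hc
    have hfinF := L7h15.SQ.finite_dual hF.abelian
    have : Fintype ((F ≃ₐ[K] F) →* ℂˣ) := Fintype.ofFinite _
    choose G g1 g2 g3 using fun ψ => L7h82.RL.val_one h hf' hω (hR ψ).ch (hn ψ)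
    refine ⟨fun s hs => ?_, ⟨∏ ψ, G ψ 1, ?_⟩, fun hsp s hs => ?_⟩
    · obtain ⟨-, -, h3⟩ := L7h60.RL.s_CLS K F hF.abelian 𝔣 χ hR
      have h4 : (fun v : HeightOneSpectrum (𝓞 K) =>
          ∏ᶠ u : Above F v, eulerFactor n c v (Ideal.absNorm u.1.asIdeal) s) = fun v => ∏ ψ, K4H55.CX.efx n c (χ ψ) s v := by
        funext v
        rw [← h3 n c]
        simp only [eulerFactor_eq]
        rfl
      rw [h4]
      exact (hasProd_prod fun ψ _ => g2 ψ s hs).multipliable
    · rw [LSeriesOver_eq]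
      exact (L7h15.SQ.val_LF hF.abelian hR g1 g2 _).2 rfl
    · rw [LSeriesOver_eq]
      have e2 : curveOver F (a : K) (b : K) = L7h15.BK.cv (algebraMap K F (a : K)) (algebraMap K F (b : K)) := by
        unfold curveOver curve L7h15.BK.cv WeierstrassCurve.map
        simp
      rw [e2]
      exact (L7h60.SQ.s_SPL K σ δ n a b c h hΔ hloc F hsp s hs).tprod_eq
  · intro F _ _ _ hF hodd
    obtain ⟨-, ρ, hρ⟩ := main K F (self_ext n) hF (Or.inr hodd)
    refine ⟨ρ, fun rF rK h1 h2 => ?_⟩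
    have h3 := hρ rF rK rK h1 h2 h2
    rw [h3, Module.finrank_self, mul_assoc, ← pow_succ', Nat.sub_add_cancel Module.finrank_pos]

end Pool.Agent.Results.MP_90f827_nt.RationalSquares
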